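import Mathlib
import Pool.Agent.W951.AC.Core
import Pool.Agent.W951.AC.Uniq

/-!
The lower bound for constraint satisfaction problems whose constraints read sums of variables,
with explicit parameters.
-/

set_option linter.unusedSectionVars false

namespace Pool.Agent.W952.B

open Finset DomAC0 H568R2 H592R3 Pool.Agent.W951.AC

section Csp
variable {M W : Type} [Fintype M] [DecidableEq M] [Fintype W] [DecidableEq W] {k : ℕ}
variable {G : Type} [Fintype G] [DecidableEq G] [AddCommGroup G]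

/-- The input bit of the constraint `i` queried by the assignment `z`: the constraint reads `k`
sums of three variables each. -/
def posn (nb : M × Fin k → Fin 3 → W) (z : W → G) (i : M) : M × (Fin k → G) :=
  (i, fun l => z (nb (i, l) 0) + z (nb (i, l) 1) + z (nb (i, l) 2))

lemma posn_inj (nb : M × Fin k → Fin 3 → W) (z : W → G) : Function.Injective (posn nb z) := by
  intro i i' h
  exact (Prod.mk.inj h).1

/-- satisfiability -/
def Sat (nb : M × Fin k → Fin 3 → W) (X : M × (Fin k → G) → Bool) : Prop :=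
  ∃ z : W → G, ∀ i, X (posn nb z i) = true

/-- A function on sets that vanishes on small sets but not on the whole set has a large
coefficient. -/
lemma not_low_of {F : Finset M → ℤ} {L : ℕ} (hL : 1 ≤ L) (h0 : ∀ V : Finset M, V.card < L → F V = 0)
    (h1 : F univ ≠ 0) : ¬ Low (L - 1) F := by
  intro hlow
  obtain ⟨A, -, hA⟩ := mb_exists univ F h1
  by_cases hc : L ≤ A.card
  · exact hA (hlow A (by omega))
  · apply hA
    unfold mb
    refine Finset.sum_eq_zero fun V hV => ?_
    rw [h0 V (lt_of_le_of_lt (Finset.card_le_card (Finset.mem_powerset.1 hV)) (by omega)), mul_zero]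

open Classical in
/-- Unless some assignment satisfies almost all constraints of `X`, one of the functions has a large
coefficient. -/
lemma pt_bound {R : Type} [Fintype R] (nb : M × Fin k → Fin 3 → W) (z : W → G) {L : ℕ}
    (hL : 1 ≤ L)
    (f : R → (M × (Fin k → G) → Bool) → Bool) (hf : ∀ X, (∃ r, f r X = true) ↔ Sat nb X)
    (X : M × (Fin k → G) → Bool) :
    (1 : ℝ) ≤ ∑ r : R, (if ¬ Low (L - 1) (pf (f r) (posn nb z) X) then (1 : ℝ) else 0) +
      ∑ b : W → G, ∑ Z ∈ powersetCard (Fintype.card M + 1 - L) (univ : Finset M),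
        (if ∀ x ∈ Z.image (posn nb b), X x = true then (1 : ℝ) else 0) := by
  have hn1 : ∀ r ∈ (univ : Finset R), (0 : ℝ) ≤
      (if ¬ Low (L - 1) (pf (f r) (posn nb z) X) then (1 : ℝ) else 0) := by
    intro r _; split_ifs <;> norm_num
  have hn3 : ∀ b : W → G, ∀ Z ∈ powersetCard (Fintype.card M + 1 - L) (univ : Finset M),
      (0 : ℝ) ≤ (if ∀ x ∈ Z.image (posn nb b), X x = true then (1 : ℝ) else 0) := by
    intro b Z _; split_ifs <;> norm_num
  have hn2 : ∀ b ∈ (univ : Finset (W → G)), (0 : ℝ) ≤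
      ∑ Z ∈ powersetCard (Fintype.card M + 1 - L) (univ : Finset M),
        (if ∀ x ∈ Z.image (posn nb b), X x = true then (1 : ℝ) else 0) :=
    fun b _ => Finset.sum_nonneg (hn3 b)
  have hs1 := Finset.sum_nonneg hn1
  have hs2 := Finset.sum_nonneg hn2
  by_cases hbad : ∃ b : W → G, Fintype.card M + 1 - L ≤
      (univ.filter (fun i : M => X (posn nb b i) = true)).card
  · obtain ⟨b, hb⟩ := hbad
    obtain ⟨Z, hZ1, hZ2⟩ := Finset.exists_subset_card_eq hb
    have h1 := Finset.single_le_sum hn2 (Finset.mem_univ b)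
    have h2 := Finset.single_le_sum (hn3 b) (Finset.mem_powersetCard.2 ⟨Finset.subset_univ Z, hZ2⟩)
    rw [if_pos (by
      intro x hx
      obtain ⟨i, hi, rfl⟩ := Finset.mem_image.1 hx
      exact (Finset.mem_filter.1 (hZ1 hi)).2)] at h2
    linarith
  · push Not at hbad
    have huns : ∀ V : Finset M, V.card < L → ¬ Sat nb (plant (posn nb z) V X) := by
      rintro V hV ⟨b, hb⟩
      have h1 : (univ : Finset M) ⊆ V ∪ univ.filter (fun i : M => X (posn nb b i) = true) := by
        intro i _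
        rcases plant_iff.1 (hb i) with ⟨j, hj, hji⟩ | h
        · have : j = i := (Prod.mk.inj hji).1
          subst this
          exact Finset.mem_union_left _ hj
        · exact Finset.mem_union_right _ (Finset.mem_filter.2 ⟨Finset.mem_univ _, h⟩)
      have h2 := (Finset.card_le_card h1).trans (Finset.card_union_le _ _)
      rw [Finset.card_univ] at h2
      have h3 := hbad b
      omega
    have hsat : Sat nb (plant (posn nb z) univ X) :=
      ⟨z, fun i => plant_iff.2 (Or.inl ⟨i, Finset.mem_univ _, rfl⟩)⟩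
    obtain ⟨r, hr⟩ := (hf _).2 hsat
    have h1 : ¬ Low (L - 1) (pf (f r) (posn nb z) X) := by
      apply not_low_of hL
      · intro V hV
        unfold pf
        rw [if_neg]
        intro hcon
        exact huns V hV ((hf _).1 ⟨r, hcon⟩)
      · unfold pf
        rw [if_pos hr]
        exact one_ne_zero
    have h2 := Finset.single_le_sum hn1 (Finset.mem_univ r)
    rw [if_pos h1] at h2
    linarith

open Classical in
/-- The average over the planted assignments. -/
lemma avg_bound {R : Type} [Fintype R] (nb : M × Fin k → Fin 3 → W) {L : ℕ} (hL : 1 ≤ L)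
    (f : R → (M × (Fin k → G) → Bool) → Bool) (hf : ∀ X, (∃ r, f r X = true) ↔ Sat nb X)
    {Y : ℕ} (hY : 1 ≤ Y)
    (hbad : (4 : ℝ) * ((Fintype.card G : ℝ) ^ Fintype.card W * 2 ^ Fintype.card M) ≤
      (2 * Y) ^ (Fintype.card M + 1 - L)) :
    3 / 4 * (Fintype.card G : ℝ) ^ Fintype.card W ≤
      ∑ r : R, ∑ z : W → G, Ex (vp (1 / Y / 2 : ℝ)) (fun X : M × (Fin k → G) → Bool =>
        if ¬ Low (L - 1) (pf (f r) (posn nb z) X) then (1 : ℝ) else 0) := by
  have hY0 : (0 : ℝ) < Y := by exact_mod_cast hY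
  have hY1 : (1 : ℝ) ≤ Y := by exact_mod_cast hY
  obtain ⟨p, hp⟩ : ∃ p : ℝ, p = 1 / Y / 2 := ⟨_, rfl⟩
  have hp' : p = 1 / (2 * Y) := by rw [hp]; field_simp
  have hp0 : 0 ≤ p := by rw [hp]; positivity
  have hp1 : p ≤ 1 := by
    rw [hp', div_le_one (by positivity)]; linarith
  rw [← hp]
  have hz : ∀ z : W → G, (3 : ℝ) / 4 ≤ ∑ r : R, Ex (vp p) (fun X : M × (Fin k → G) → Bool =>
        if ¬ Low (L - 1) (pf (f r) (posn nb z) X) then (1 : ℝ) else 0) := by
    intro z
    have h1 := Ex_mono (vp_nonneg hp0 hp1) (pt_bound nb z hL f hf)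
    rw [Ex_const (vp_sum p), Ex_add, Ex_sum, Ex_sum] at h1
    have h2 : ∑ b : W → G, Ex (vp p) (fun X : M × (Fin k → G) → Bool =>
        ∑ Z ∈ powersetCard (Fintype.card M + 1 - L) (univ : Finset M),
        (if ∀ x ∈ Z.image (posn nb b), X x = true then (1 : ℝ) else 0)) ≤ 1 / 4 := by
      have h3 : ∀ b : W → G, Ex (vp p) (fun X : M × (Fin k → G) → Bool =>
        ∑ Z ∈ powersetCard (Fintype.card M + 1 - L) (univ : Finset M),
        (if ∀ x ∈ Z.image (posn nb b), X x = true then (1 : ℝ) else 0)) ≤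
          2 ^ Fintype.card M * p ^ (Fintype.card M + 1 - L) := by
        intro b
        rw [Ex_sum]
        have h4 : ∀ Z ∈ powersetCard (Fintype.card M + 1 - L) (univ : Finset M),
            Ex (vp p) (fun X : M × (Fin k → G) → Bool =>
              (if ∀ x ∈ Z.image (posn nb b), X x = true then (1 : ℝ) else 0)) =
              p ^ (Fintype.card M + 1 - L) := by
          intro Z hZ
          rw [Ex_one, Finset.card_image_of_injective _ (posn_inj nb b),
            (Finset.mem_powersetCard.1 hZ).2]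
        rw [Finset.sum_congr rfl h4, Finset.sum_const, nsmul_eq_mul]
        apply mul_le_mul_of_nonneg_right _ (by positivity)
        have h5 : (powersetCard (Fintype.card M + 1 - L) (univ : Finset M)).card ≤
            2 ^ Fintype.card M := by
          rw [← Fintype.card_finset, ← Finset.card_univ]
          exact Finset.card_le_univ _
        exact_mod_cast h5
      refine (Finset.sum_le_sum fun b _ => h3 b).trans ?_
      rw [Finset.sum_const, Finset.card_univ, Fintype.card_fun, nsmul_eq_mul, hp', one_div_pow]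
      push_cast
      rw [mul_one_div, mul_div_assoc', div_le_div_iff₀ (by positivity) (by norm_num)]
      linarith
    linarith
  have h5 := Finset.card_nsmul_le_sum (univ : Finset (W → G)) _ _ (fun z _ => hz z)
  rw [Finset.card_univ, Fintype.card_fun, nsmul_eq_mul, Finset.sum_comm] at h5
  push_cast at h5
  linarith

/-- The lower bound with its parameters. -/
theorem csp_lower {R : Type} [Fintype R] {J : Type} [Fintype J] (nb : M × Fin k → Fin 3 → W)
    {L S D h R' : ℕ} (hL : 2 ≤ L)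
    (hcnt : ∀ H : Finset M, H.card < 2 * L → ∀ V : Finset (M × (Fin k → G)),
      (univ.filter (fun z : W → G => H.image (posn nb z) = V)).card *
        Fintype.card G ^ (k * H.card) ≤ Fintype.card G ^ Fintype.card W)
    (hh : 1 ≤ h) (Ci : R → Circuit J) (σ : (M × (Fin k → G) → Bool) → (J → Bool))
    (hσ : ∀ j, Junta 1 (fun x => σ x j))
    (hdec : ∀ X, (∃ r, (Ci r).eval (σ X) = true) ↔ Sat nb X)
    (hdepth : ∀ r, (Ci r).depth ≤ D + 1) (hS : ∀ r, (Ci r).size ≤ S)
    {Y : ℕ} {N : ℝ} (hN : 36 ≤ N) (hY : 1 ≤ Y)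
    (hbad : (4 : ℝ) * ((Fintype.card G : ℝ) ^ Fintype.card W * 2 ^ Fintype.card M) ≤
      (2 * Y) ^ (Fintype.card M + 1 - L))
    (h2 : 2 * Y * N * (12 * h * N) ^ D * N ≤ (Fintype.card G : ℝ) ^ k)
    (hR : Fintype.card R ≤ R')
    (h3 : (R' : ℝ) * (S * 2 ^ Fintype.card M * (6 ^ h * (1 / N ^ L))) ≤ 1 / 8)
    (h4 : (R' : ℝ) * (((S * (Fintype.card J + S + 1) : ℕ) : ℝ) ^ 2 * 2 ^ Fintype.card M *
      (2 * Y * N * (12 * h * N) ^ D) ^ (2 * L) *
      ((12 * (1 / N)) ^ (h + 1) + D * (1 / N) ^ (h + 1))) ≤ 1 / 8) : False := by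
  classical
  have hN0 : 0 < N := by linarith
  have hh0 : (1 : ℝ) ≤ h := by exact_mod_cast hh
  have hY1 : (1 : ℝ) ≤ Y := by exact_mod_cast hY
  have hG0 : 0 < Fintype.card G := Fintype.card_pos
  have hG : (0 : ℝ) < Fintype.card G := by exact_mod_cast hG0
  obtain ⟨q, hq⟩ : ∃ q : ℝ, q = Fintype.card G := ⟨_, rfl⟩
  obtain ⟨v, hv⟩ : ∃ v : ℕ, v = Fintype.card W := ⟨_, rfl⟩
  obtain ⟨c, hc⟩ : ∃ c : ℝ, c = 2 * Y * N * (12 * h * N) ^ D := ⟨_, rfl⟩
  have hb := avg_bound nb (by omega : 1 ≤ L) (fun r x => (Ci r).eval (σ x)) hdec hY hbad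
  rw [← hq, ← hv] at hb
  rw [← hc] at h2 h4
  rw [← hq] at hG h2
  have hy0 : (0 : ℝ) < 1 / Y := by positivity
  have hy1 : (1 : ℝ) / Y ≤ 1 := by rw [div_le_one (by positivity)]; exact hY1
  have hc1 : 1 ≤ c := by
    have e1 : (1 : ℝ) ≤ 12 * h * N := by nlinarith
    have e2 : (1 : ℝ) ≤ (12 * h * N) ^ D := one_le_pow₀ e1
    have e3 : (1 : ℝ) ≤ 2 * Y * N := by nlinarith
    rw [hc]
    nlinarith
  have hc0 : 0 < c := by linarith
  have hτ0 : 0 < 1 / (12 * (h : ℝ) * N) := by positivity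
  have hτ1 : 1 / (12 * (h : ℝ) * N) ≤ 1 / 3 := by
    apply one_div_le_one_div_of_le (by norm_num)
    nlinarith
  have hq1 : 1 / N ≤ 1 / 3 := one_div_le_one_div_of_le (by norm_num) (by linarith)
  have hcyq : 2 ≤ c * (1 / (Y : ℝ) * (1 / N * (1 / (12 * (h : ℝ) * N)) ^ D)) := by
    rw [hc, one_div_pow]
    have : (12 * (h : ℝ) * N) ^ D ≠ 0 := by positivity
    apply le_of_eq
    field_simp
  obtain ⟨Q, hQ⟩ : ∃ Q : ℝ, Q = q ^ v * (1 / N ^ L) := ⟨_, rfl⟩
  have hQ0 : 0 ≤ Q := by rw [hQ]; positivity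
  have hcore : ∀ r : R, ∑ z : W → G, Ex (vp (1 / Y / 2 : ℝ)) (fun X : M × (Fin k → G) → Bool =>
        if ¬ Low (L - 1) (pf (fun x => (Ci r).eval (σ x)) (posn nb z) X) then (1 : ℝ) else 0) ≤
      q ^ v * (S * 2 ^ Fintype.card M * (6 ^ h * (1 / N ^ L)) +
        ((S * (Fintype.card J + S + 1) : ℕ) : ℝ) ^ 2 * 2 ^ Fintype.card M * c ^ (2 * L) *
          ((12 * (1 / N)) ^ (h + 1) + D * (1 / N) ^ (h + 1))) := by
    intro r
    have h5 := core (A := W → G) (Ci r) σ hσ (posn nb) (posn_inj nb) hh (hdepth r) (hS r) hL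
      hy0 hy1 (by positivity : 0 < 1 / N) hq1 hτ0 hτ1 hcyq hc1 hQ0 (by
        intro H hH1 hH2
        refine ⟨Fintype.card G ^ Fintype.card W / Fintype.card G ^ (k * H.card), fun V => ?_, ?_⟩
        · rw [Nat.le_div_iff_mul_le (by positivity)]
          exact hcnt H hH2 V
        · have e1 : ((Fintype.card G ^ Fintype.card W / Fintype.card G ^ (k * H.card) : ℕ) : ℝ) ≤
              q ^ v / q ^ (k * H.card) := by
            refine Nat.cast_div_le.trans (le_of_eq ?_)
            push_cast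
            rw [hq, hv]
          have e2 : (c * N) ^ H.card ≤ q ^ (k * H.card) := by
            rw [pow_mul]
            exact pow_le_pow_left₀ (by positivity) h2 _
          have e6 : N ^ L ≤ N ^ H.card := pow_le_pow_right₀ (by linarith) hH1
          calc c ^ H.card * ((Fintype.card G ^ Fintype.card W / Fintype.card G ^ (k * H.card) : ℕ) : ℝ)
              ≤ c ^ H.card * (q ^ v / q ^ (k * H.card)) :=
                mul_le_mul_of_nonneg_left e1 (by positivity)
            _ ≤ Q := by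
              rw [hQ, mul_div_assoc', mul_one_div, div_le_div_iff₀ (by positivity) (by positivity)]
              calc c ^ H.card * q ^ v * N ^ L ≤ c ^ H.card * q ^ v * N ^ H.card :=
                    mul_le_mul_of_nonneg_left e6 (by positivity)
                _ = q ^ v * (c * N) ^ H.card := by rw [mul_pow]; ring
                _ ≤ q ^ v * q ^ (k * H.card) := mul_le_mul_of_nonneg_left e2 (by positivity))
    refine h5.trans (le_of_eq ?_)
    have e12 : 12 * (h : ℝ) * (1 / (12 * (h : ℝ) * N)) = 1 / N := by field_simp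
    rw [e12, Fintype.card_fun, hQ]
    push_cast
    rw [← hq, ← hv]
    ring
  have hall := hb.trans (Finset.sum_le_sum fun r _ => hcore r)
  rw [Finset.sum_const, Finset.card_univ, nsmul_eq_mul] at hall
  have hvp : (0 : ℝ) < q ^ v := by positivity
  obtain ⟨B1, hB1⟩ : ∃ B : ℝ, B = S * 2 ^ Fintype.card M * (6 ^ h * (1 / N ^ L)) := ⟨_, rfl⟩
  obtain ⟨B2, hB2⟩ : ∃ B : ℝ, B = ((S * (Fintype.card J + S + 1) : ℕ) : ℝ) ^ 2 *
    2 ^ Fintype.card M * c ^ (2 * L) * ((12 * (1 / N)) ^ (h + 1) + D * (1 / N) ^ (h + 1)) :=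
    ⟨_, rfl⟩
  rw [← hB1] at h3 hall
  rw [← hB2] at h4 hall
  have hB10 : 0 ≤ B1 := by rw [hB1]; positivity
  have hB20 : 0 ≤ B2 := by rw [hB2]; positivity
  have hRR : (Fintype.card R : ℝ) ≤ R' := by exact_mod_cast hR
  have g1 : (Fintype.card R : ℝ) * (q ^ v * (B1 + B2)) ≤ q ^ v * (1 / 4) := by
    calc (Fintype.card R : ℝ) * (q ^ v * (B1 + B2)) ≤ R' * (q ^ v * (B1 + B2)) :=
          mul_le_mul_of_nonneg_right hRR (by positivity)
      _ = q ^ v * (R' * B1 + R' * B2) := by ring
      _ ≤ q ^ v * (1 / 4) := by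
        apply mul_le_mul_of_nonneg_left _ hvp.le
        linarith
  linarith

end Csp

end Pool.Agent.W952.B
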