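import Mathlib
import Pool.Agent.W951.AC.Core
import Pool.Agent.W951.AC.Uniq
import Pool.Agent.W952.B.Csp

/-!
The lower bound for robust constraint satisfaction problems whose constraints read sums of
variables, for disjunctions and for conjunctions of circuits.
-/

set_option linter.unusedSectionVars false

namespace Pool.Agent.W952.B

open Finset DomAC0 H568R2 H592R3 Pool.Agent.W951.AC

section Mob
variable {M : Type*} [DecidableEq M]

/-- Iterated differences at a point in terms of the Moebius coefficients. -/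
lemma mb_shift (U : Finset M) : ∀ (F : Finset M → ℤ) (H : Finset M), Disjoint U H →
    mb (fun V => F (U ∪ V)) H = ∑ T ∈ U.powerset, mb F (T ∪ H) := by
  induction U using Finset.induction_on with
  | empty => intro F H _; simp
  | insert j U hj ih =>
    intro F H hd
    rw [Finset.disjoint_insert_left] at hd
    rw [Finset.sum_powerset_insert hj, ← ih F H hd.2]
    have h1 : ∀ T ∈ U.powerset, mb F (insert j T ∪ H) = mb (dl j F) (T ∪ H) := by
      intro T hT
      rw [Finset.insert_union, mb_insert]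
      rw [Finset.mem_union, not_or]
      exact ⟨fun h => hj (Finset.mem_powerset.1 hT h), hd.1⟩
    rw [Finset.sum_congr rfl h1, ← ih (dl j F) H hd.2, ← mb_add]
    apply mb_congr
    intro V _
    simp only [dl]
    rw [Finset.insert_union]
    ring

/-- A function on sets that is `1` on all sets with a small complement, but not on the empty set,
has a large coefficient. -/
lemma not_low_co [Fintype M] {F : Finset M → ℤ} {L : ℕ} (hL : 1 ≤ L)
    (h0 : ∀ V : Finset M, V.card < L → F (univ \ V) = 1) (h1 : F ∅ ≠ 1) : ¬ Low (L - 1) F := by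
  classical
  intro hlow
  -- a maximal set with value different from one
  obtain ⟨U, hU, hmax⟩ := (univ.filter (fun U : Finset M => F U ≠ 1)).exists_max_image Finset.card
    ⟨∅, by simpa using h1⟩
  rw [Finset.mem_filter] at hU
  have hH : L ≤ (univ \ U).card := by
    by_contra hcon
    push Not at hcon
    have := h0 (univ \ U) hcon
    rw [Finset.sdiff_sdiff_eq_self (Finset.subset_univ U)] at this
    exact hU.2 this
  have hd : Disjoint U (univ \ U) := Finset.disjoint_sdiff
  have e1 := mb_shift U F (univ \ U) hd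
  have e2 : ∑ T ∈ U.powerset, mb F (T ∪ (univ \ U)) = 0 := by
    refine Finset.sum_eq_zero fun T _ => hlow _ ?_
    have := Finset.card_le_card (Finset.subset_union_right (s₁ := T) (s₂ := univ \ U))
    omega
  rw [e2] at e1
  have e3 : mb (fun V => F (U ∪ V)) (univ \ U) =
      mb (fun V => (1 : ℤ) - (if V = ∅ then 1 - F U else 0)) (univ \ U) := by
    apply mb_congr
    intro V hV
    by_cases hVe : V = ∅
    · subst hVe; simp
    · rw [if_neg hVe, sub_zero]
      by_contra hne
      have h3 := hmax (U ∪ V) (Finset.mem_filter.2 ⟨Finset.mem_univ _, hne⟩)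
      have h4 : Disjoint U V := Finset.disjoint_of_subset_right hV hd
      rw [Finset.card_union_of_disjoint h4] at h3
      have := Finset.card_pos.2 (Finset.nonempty_iff_ne_empty.2 hVe)
      omega
  rw [e3, mb_sub, mb_const 1 (Finset.card_pos.1 (by omega)), zero_sub, neg_eq_zero] at e1
  unfold mb at e1
  rw [Finset.sum_eq_single ∅] at e1
  · simp only [Finset.card_empty, add_zero, if_true] at e1
    rcases mul_eq_zero.1 e1 with h | h
    · exact absurd h (pow_ne_zero _ (by norm_num))
    · exact hU.2 (by linarith)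
  · intro V _ hV
    simp only
    rw [if_neg hV, mul_zero]
  · intro h
    exact absurd (Finset.mem_powerset.2 (Finset.empty_subset _)) h

end Mob

section Csp
variable {M W : Type} [Fintype M] [DecidableEq M] [Fintype W] [DecidableEq W] {k : ℕ}
variable {G : Type} [Fintype G] [DecidableEq G] [AddCommGroup G]

/-- Robust satisfiability: the constraint `i` may be violated if it gets a token `sc i u`; every
token is given to at most one constraint. -/
def RSat (nb : M × Fin k → Fin 3 → W) (sc : M → Fin 3 → W) (X : M × (Fin k → G) → Bool) : Prop :=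
  ∃ z : W → G, ∃ e : M → Option (Fin 3),
    (∀ i i' u u', e i = some u → e i' = some u' → sc i u = sc i' u' → i = i') ∧
    ∀ i, e i = none → X (posn nb z i) = true

/-- At most `card W` constraints are violated. -/
lemma viol_card {sc : M → Fin 3 → W} {e : M → Option (Fin 3)}
    (he : ∀ i i' u u', e i = some u → e i' = some u' → sc i u = sc i' u' → i = i') :
    (univ.filter (fun i : M => e i ≠ none)).card ≤ Fintype.card W := by
  classical
  rw [← Finset.card_univ]
  apply Finset.card_le_card_of_injOn (fun i => sc i ((e i).getD 0)) (fun _ _ => Finset.mem_univ _)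
  intro i hi i' hi' h
  simp only [Finset.coe_filter, Finset.mem_univ, true_and, Set.mem_ofPred_eq] at hi hi'
  obtain ⟨u, hu⟩ := Option.ne_none_iff_exists'.1 hi
  obtain ⟨u', hu'⟩ := Option.ne_none_iff_exists'.1 hi'
  simp only [hu, hu', Option.getD_some] at h
  exact he i i' u u' hu hu' h

lemma not_rsat {nb : M × Fin k → Fin 3 → W} {sc : M → Fin 3 → W} {L : ℕ}
    (z : W → G) {X : M × (Fin k → G) → Bool}
    (hbad : ∀ b : W → G, (univ.filter (fun i : M => X (posn nb b i) = true)).card <
      Fintype.card M + 1 - L - Fintype.card W) (V : Finset M) (hV : V.card < L) :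
    ¬ RSat nb sc (plant (posn nb z) V X) := by
  classical
  rintro ⟨b, e, he, hb⟩
  have h1 : (univ : Finset M) ⊆ (V ∪ univ.filter (fun i : M => X (posn nb b i) = true)) ∪
      univ.filter (fun i : M => e i ≠ none) := by
    intro i _
    by_cases hi : e i = none
    · apply Finset.mem_union_left
      rcases plant_iff.1 (hb i hi) with ⟨j, hj, hji⟩ | h
      · have : j = i := (Prod.mk.inj hji).1
        subst this
        exact Finset.mem_union_left _ hj
      · exact Finset.mem_union_right _ (Finset.mem_filter.2 ⟨Finset.mem_univ _, h⟩)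
    · exact Finset.mem_union_right _ (Finset.mem_filter.2 ⟨Finset.mem_univ _, hi⟩)
  have h2 := ((Finset.card_le_card h1).trans (Finset.card_union_le _ _)).trans
    (Nat.add_le_add_right (Finset.card_union_le _ _) _)
  rw [Finset.card_univ] at h2
  have h3 := hbad b
  have h4 := viol_card (sc := sc) he
  omega

lemma rsat_plant {nb : M × Fin k → Fin 3 → W} {sc : M → Fin 3 → W} (z : W → G)
    (X : M × (Fin k → G) → Bool) (V : Finset M)
    (hV : ∃ u : M → Fin 3, Set.InjOn (fun i => sc i (u i)) V) :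
    RSat nb sc (plant (posn nb z) (univ \ V) X) := by
  classical
  obtain ⟨u, hu⟩ := hV
  refine ⟨z, fun i => if i ∈ V then some (u i) else none, ?_, ?_⟩
  · intro i i' v v' h1 h2 h3
    by_cases hi : i ∈ V
    · by_cases hi' : i' ∈ V
      · simp only [if_pos hi, if_pos hi', Option.some.injEq] at h1 h2
        subst h1 h2
        exact hu hi hi' h3
      · simp [hi'] at h2
    · simp [hi] at h1
  · intro i hi
    have hiV : i ∉ V := by
      intro h
      simp [h] at hi
    exact plant_iff.2 (Or.inl ⟨i, Finset.mem_sdiff.2 ⟨Finset.mem_univ _, hiV⟩, rfl⟩)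

open Classical in
/-- Unless some assignment satisfies almost all constraints of `X`, one of the functions has a large
coefficient. -/
lemma pt_bound2 {R : Type} [Fintype R] (nb : M × Fin k → Fin 3 → W) (sc : M → Fin 3 → W)
    (z : W → G) {L : ℕ} (hL : 1 ≤ L)
    (hsc : ∀ V : Finset M, V.card < L → ∃ u : M → Fin 3, Set.InjOn (fun i => sc i (u i)) V)
    (f : R → (M × (Fin k → G) → Bool) → Bool)
    (hf : (∀ X, (∃ r, f r X = true) ↔ RSat nb sc X) ∨ (∀ X, (∀ r, f r X = true) ↔ RSat nb sc X))
    (X : M × (Fin k → G) → Bool) :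
    (1 : ℝ) ≤ ∑ r : R, (if ¬ Low (L - 1) (pf (f r) (posn nb z) X) then (1 : ℝ) else 0) +
      ∑ b : W → G, ∑ Z ∈ powersetCard (Fintype.card M + 1 - L - Fintype.card W)
        (univ : Finset M),
        (if ∀ x ∈ Z.image (posn nb b), X x = true then (1 : ℝ) else 0) := by
  have hn1 : ∀ r ∈ (univ : Finset R), (0 : ℝ) ≤
      (if ¬ Low (L - 1) (pf (f r) (posn nb z) X) then (1 : ℝ) else 0) := by
    intro r _; split_ifs <;> norm_num
  have hn3 : ∀ b : W → G, ∀ Z ∈ powersetCard (Fintype.card M + 1 - L - Fintype.card W)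
      (univ : Finset M),
      (0 : ℝ) ≤ (if ∀ x ∈ Z.image (posn nb b), X x = true then (1 : ℝ) else 0) := by
    intro b Z _; split_ifs <;> norm_num
  have hn2 : ∀ b ∈ (univ : Finset (W → G)), (0 : ℝ) ≤
      ∑ Z ∈ powersetCard (Fintype.card M + 1 - L - Fintype.card W) (univ : Finset M),
        (if ∀ x ∈ Z.image (posn nb b), X x = true then (1 : ℝ) else 0) :=
    fun b _ => Finset.sum_nonneg (hn3 b)
  have hs1 := Finset.sum_nonneg hn1
  have hs2 := Finset.sum_nonneg hn2
  by_cases hbad : ∃ b : W → G, Fintype.card M + 1 - L - Fintype.card W ≤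
      (univ.filter (fun i : M => X (posn nb b i) = true)).card
  · obtain ⟨b, hb⟩ := hbad
    obtain ⟨Z, hZ1, hZ2⟩ := Finset.exists_subset_card_eq hb
    have h1 := Finset.single_le_sum hn2 (Finset.mem_univ b)
    have h2 := Finset.single_le_sum (hn3 b) (Finset.mem_powersetCard.2 ⟨Finset.subset_univ Z, hZ2⟩)
    rw [if_pos (by
      intro x hx
      obtain ⟨i, hi, rfl⟩ := Finset.mem_image.1 hx
      exact (Finset.mem_filter.1 (hZ1 hi)).2)] at h2
    linarith
  · push Not at hbad
    have huns : ∀ V : Finset M, V.card < L → ¬ RSat nb sc (plant (posn nb z) V X) :=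
      fun V hV => not_rsat z hbad V hV
    have hsat : ∀ V : Finset M, V.card < L → RSat nb sc (plant (posn nb z) (univ \ V) X) :=
      fun V hV => rsat_plant z X V (hsc V hV)
    have key : ∃ r, ¬ Low (L - 1) (pf (f r) (posn nb z) X) := by
      rcases hf with hf | hf
      · have h0 := hsat ∅ (by rw [Finset.card_empty]; omega)
        rw [Finset.sdiff_empty] at h0
        obtain ⟨r, hr⟩ := (hf _).2 h0
        refine ⟨r, ?_⟩
        apply not_low_of hL
        · intro V hV
          unfold pf
          rw [if_neg]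
          intro hcon
          exact huns V hV ((hf _).1 ⟨r, hcon⟩)
        · unfold pf
          rw [if_pos hr]
          exact one_ne_zero
      · have h0 := huns ∅ (by rw [Finset.card_empty]; omega)
        rw [← hf] at h0
        push Not at h0
        obtain ⟨r, hr⟩ := h0
        refine ⟨r, ?_⟩
        apply not_low_co hL
        · intro V hV
          unfold pf
          rw [if_pos ((hf _).2 (hsat V hV) r)]
        · unfold pf
          rw [if_neg hr]
          exact zero_ne_one
    obtain ⟨r, hr⟩ := key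
    have h2 := Finset.single_le_sum hn1 (Finset.mem_univ r)
    rw [if_pos hr] at h2
    linarith

open Classical in
/-- The average over the planted assignments. -/
lemma avg_bound2 {R : Type} [Fintype R] (nb : M × Fin k → Fin 3 → W) (sc : M → Fin 3 → W)
    {L : ℕ} (hL : 1 ≤ L)
    (hsc : ∀ V : Finset M, V.card < L → ∃ u : M → Fin 3, Set.InjOn (fun i => sc i (u i)) V)
    (f : R → (M × (Fin k → G) → Bool) → Bool)
    (hf : (∀ X, (∃ r, f r X = true) ↔ RSat nb sc X) ∨ (∀ X, (∀ r, f r X = true) ↔ RSat nb sc X))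
    {Y : ℕ} (hY : 1 ≤ Y)
    (hbad : (4 : ℝ) * ((Fintype.card G : ℝ) ^ Fintype.card W * 2 ^ Fintype.card M) ≤
      (2 * Y) ^ (Fintype.card M + 1 - L - Fintype.card W)) :
    3 / 4 * (Fintype.card G : ℝ) ^ Fintype.card W ≤
      ∑ r : R, ∑ z : W → G, Ex (vp (1 / Y / 2 : ℝ)) (fun X : M × (Fin k → G) → Bool =>
        if ¬ Low (L - 1) (pf (f r) (posn nb z) X) then (1 : ℝ) else 0) := by
  have hY0 : (0 : ℝ) < Y := by exact_mod_cast hY
  have hY1 : (1 : ℝ) ≤ Y := by exact_mod_cast hY
  obtain ⟨p, hp⟩ : ∃ p : ℝ, p = 1 / Y / 2 := ⟨_, rfl⟩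
  have hp' : p = 1 / (2 * Y) := by rw [hp]; field_simp
  have hp0 : 0 ≤ p := by rw [hp]; positivity
  have hp1 : p ≤ 1 := by
    rw [hp', div_le_one (by positivity)]; linarith
  rw [← hp]
  obtain ⟨E, hE⟩ : ∃ E : ℕ, E = Fintype.card M + 1 - L - Fintype.card W := ⟨_, rfl⟩
  rw [← hE] at hbad
  have hz : ∀ z : W → G, (3 : ℝ) / 4 ≤ ∑ r : R, Ex (vp p) (fun X : M × (Fin k → G) → Bool =>
        if ¬ Low (L - 1) (pf (f r) (posn nb z) X) then (1 : ℝ) else 0) := by
    intro z
    have h1 := Ex_mono (vp_nonneg hp0 hp1) (pt_bound2 nb sc z hL hsc f hf)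
    rw [← hE] at h1
    rw [Ex_const (vp_sum p), Ex_add, Ex_sum, Ex_sum] at h1
    have h2 : ∑ b : W → G, Ex (vp p) (fun X : M × (Fin k → G) → Bool =>
        ∑ Z ∈ powersetCard E (univ : Finset M),
        (if ∀ x ∈ Z.image (posn nb b), X x = true then (1 : ℝ) else 0)) ≤ 1 / 4 := by
      have h3 : ∀ b : W → G, Ex (vp p) (fun X : M × (Fin k → G) → Bool =>
        ∑ Z ∈ powersetCard E (univ : Finset M),
        (if ∀ x ∈ Z.image (posn nb b), X x = true then (1 : ℝ) else 0)) ≤
          2 ^ Fintype.card M * p ^ E := by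
        intro b
        rw [Ex_sum]
        have h4 : ∀ Z ∈ powersetCard E (univ : Finset M),
            Ex (vp p) (fun X : M × (Fin k → G) → Bool =>
              (if ∀ x ∈ Z.image (posn nb b), X x = true then (1 : ℝ) else 0)) =
              p ^ E := by
          intro Z hZ
          rw [Ex_one, Finset.card_image_of_injective _ (posn_inj nb b),
            (Finset.mem_powersetCard.1 hZ).2]
        rw [Finset.sum_congr rfl h4, Finset.sum_const, nsmul_eq_mul]
        apply mul_le_mul_of_nonneg_right _ (by positivity)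
        have h5 : (powersetCard E (univ : Finset M)).card ≤ 2 ^ Fintype.card M := by
          rw [← Fintype.card_finset, ← Finset.card_univ]
          exact Finset.card_le_univ _
        exact_mod_cast h5
      refine (Finset.sum_le_sum fun b _ => h3 b).trans ?_
      rw [Finset.sum_const, Finset.card_univ, Fintype.card_fun, nsmul_eq_mul, hp', one_div_pow]
      push_cast
      rw [mul_one_div, mul_div_assoc', div_le_div_iff₀ (by positivity) (by norm_num)]
      linarith
    linarith
  have h5 := Finset.card_nsmul_le_sum (univ : Finset (W → G)) _ _ (fun z _ => hz z)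
  rw [Finset.card_univ, Fintype.card_fun, nsmul_eq_mul, Finset.sum_comm] at h5
  push_cast at h5
  linarith

/-- The lower bound with its parameters. -/
theorem csp_lower2 {R : Type} [Fintype R] {J : Type} [Fintype J] (nb : M × Fin k → Fin 3 → W)
    (sc : M → Fin 3 → W) {L S D h R' : ℕ} (hL : 2 ≤ L)
    (hsc : ∀ V : Finset M, V.card < L → ∃ u : M → Fin 3, Set.InjOn (fun i => sc i (u i)) V)
    (hcnt : ∀ H : Finset M, H.card < 2 * L → ∀ V : Finset (M × (Fin k → G)),
      (univ.filter (fun z : W → G => H.image (posn nb z) = V)).card *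
        Fintype.card G ^ (k * H.card) ≤ Fintype.card G ^ Fintype.card W)
    (hh : 1 ≤ h) (Ci : R → Circuit J) (σ : (M × (Fin k → G) → Bool) → (J → Bool))
    (hσ : ∀ j, Junta 1 (fun x => σ x j))
    (hdec : (∀ X, (∃ r, (Ci r).eval (σ X) = true) ↔ RSat nb sc X) ∨
      (∀ X, (∀ r, (Ci r).eval (σ X) = true) ↔ RSat nb sc X))
    (hdepth : ∀ r, (Ci r).depth ≤ D + 1) (hS : ∀ r, (Ci r).size ≤ S)
    {Y : ℕ} {N : ℝ} (hN : 36 ≤ N) (hY : 1 ≤ Y)
    (hbad : (4 : ℝ) * ((Fintype.card G : ℝ) ^ Fintype.card W * 2 ^ Fintype.card M) ≤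
      (2 * Y) ^ (Fintype.card M + 1 - L - Fintype.card W))
    (h2 : 2 * Y * N * (12 * h * N) ^ D * N ≤ (Fintype.card G : ℝ) ^ k)
    (hR : Fintype.card R ≤ R')
    (h3 : (R' : ℝ) * (S * 2 ^ Fintype.card M * (6 ^ h * (1 / N ^ L))) ≤ 1 / 8)
    (h4 : (R' : ℝ) * (((S * (Fintype.card J + S + 1) : ℕ) : ℝ) ^ 2 * 2 ^ Fintype.card M *
      (2 * Y * N * (12 * h * N) ^ D) ^ (2 * L) *
      ((12 * (1 / N)) ^ (h + 1) + D * (1 / N) ^ (h + 1))) ≤ 1 / 8) : False := by
  classical
  have hN0 : 0 < N := by linarith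
  have hh0 : (1 : ℝ) ≤ h := by exact_mod_cast hh
  have hY1 : (1 : ℝ) ≤ Y := by exact_mod_cast hY
  have hG0 : 0 < Fintype.card G := Fintype.card_pos
  have hG : (0 : ℝ) < Fintype.card G := by exact_mod_cast hG0
  obtain ⟨q, hq⟩ : ∃ q : ℝ, q = Fintype.card G := ⟨_, rfl⟩
  obtain ⟨v, hv⟩ : ∃ v : ℕ, v = Fintype.card W := ⟨_, rfl⟩
  obtain ⟨c, hc⟩ : ∃ c : ℝ, c = 2 * Y * N * (12 * h * N) ^ D := ⟨_, rfl⟩
  have hb := avg_bound2 nb sc (by omega : 1 ≤ L) hsc (fun r x => (Ci r).eval (σ x)) hdec hY hbad
  rw [← hq, ← hv] at hb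
  rw [← hc] at h2 h4
  rw [← hq] at hG h2
  have hy0 : (0 : ℝ) < 1 / Y := by positivity
  have hy1 : (1 : ℝ) / Y ≤ 1 := by rw [div_le_one (by positivity)]; exact hY1
  have hc1 : 1 ≤ c := by
    have e1 : (1 : ℝ) ≤ 12 * h * N := by nlinarith
    have e2 : (1 : ℝ) ≤ (12 * h * N) ^ D := one_le_pow₀ e1
    have e3 : (1 : ℝ) ≤ 2 * Y * N := by nlinarith
    rw [hc]
    nlinarith
  have hc0 : 0 < c := by linarith
  have hτ0 : 0 < 1 / (12 * (h : ℝ) * N) := by positivity
  have hτ1 : 1 / (12 * (h : ℝ) * N) ≤ 1 / 3 := by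
    apply one_div_le_one_div_of_le (by norm_num)
    nlinarith
  have hq1 : 1 / N ≤ 1 / 3 := one_div_le_one_div_of_le (by norm_num) (by linarith)
  have hcyq : 2 ≤ c * (1 / (Y : ℝ) * (1 / N * (1 / (12 * (h : ℝ) * N)) ^ D)) := by
    rw [hc, one_div_pow]
    have : (12 * (h : ℝ) * N) ^ D ≠ 0 := by positivity
    apply le_of_eq
    field_simp
  obtain ⟨Q, hQ⟩ : ∃ Q : ℝ, Q = q ^ v * (1 / N ^ L) := ⟨_, rfl⟩
  have hQ0 : 0 ≤ Q := by rw [hQ]; positivity
  have hcore : ∀ r : R, ∑ z : W → G, Ex (vp (1 / Y / 2 : ℝ)) (fun X : M × (Fin k → G) → Bool =>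
        if ¬ Low (L - 1) (pf (fun x => (Ci r).eval (σ x)) (posn nb z) X) then (1 : ℝ) else 0) ≤
      q ^ v * (S * 2 ^ Fintype.card M * (6 ^ h * (1 / N ^ L)) +
        ((S * (Fintype.card J + S + 1) : ℕ) : ℝ) ^ 2 * 2 ^ Fintype.card M * c ^ (2 * L) *
          ((12 * (1 / N)) ^ (h + 1) + D * (1 / N) ^ (h + 1))) := by
    intro r
    have h5 := core (A := W → G) (Ci r) σ hσ (posn nb) (posn_inj nb) hh (hdepth r) (hS r) hL
      hy0 hy1 (by positivity : 0 < 1 / N) hq1 hτ0 hτ1 hcyq hc1 hQ0 (by
        intro H hH1 hH2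
        refine ⟨Fintype.card G ^ Fintype.card W / Fintype.card G ^ (k * H.card), fun V => ?_, ?_⟩
        · rw [Nat.le_div_iff_mul_le (by positivity)]
          exact hcnt H hH2 V
        · have e1 : ((Fintype.card G ^ Fintype.card W / Fintype.card G ^ (k * H.card) : ℕ) : ℝ) ≤
              q ^ v / q ^ (k * H.card) := by
            refine Nat.cast_div_le.trans (le_of_eq ?_)
            push_cast
            rw [hq, hv]
          have e2 : (c * N) ^ H.card ≤ q ^ (k * H.card) := by
            rw [pow_mul]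
            exact pow_le_pow_left₀ (by positivity) h2 _
          have e6 : N ^ L ≤ N ^ H.card := pow_le_pow_right₀ (by linarith) hH1
          calc c ^ H.card * ((Fintype.card G ^ Fintype.card W / Fintype.card G ^ (k * H.card) : ℕ) : ℝ)
              ≤ c ^ H.card * (q ^ v / q ^ (k * H.card)) :=
                mul_le_mul_of_nonneg_left e1 (by positivity)
            _ ≤ Q := by
              rw [hQ, mul_div_assoc', mul_one_div, div_le_div_iff₀ (by positivity) (by positivity)]
              calc c ^ H.card * q ^ v * N ^ L ≤ c ^ H.card * q ^ v * N ^ H.card :=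
                    mul_le_mul_of_nonneg_left e6 (by positivity)
                _ = q ^ v * (c * N) ^ H.card := by rw [mul_pow]; ring
                _ ≤ q ^ v * q ^ (k * H.card) := mul_le_mul_of_nonneg_left e2 (by positivity))
    refine h5.trans (le_of_eq ?_)
    have e12 : 12 * (h : ℝ) * (1 / (12 * (h : ℝ) * N)) = 1 / N := by field_simp
    rw [e12, Fintype.card_fun, hQ]
    push_cast
    rw [← hq, ← hv]
    ring
  have hall := hb.trans (Finset.sum_le_sum fun r _ => hcore r)
  rw [Finset.sum_const, Finset.card_univ, nsmul_eq_mul] at hall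
  have hvp : (0 : ℝ) < q ^ v := by positivity
  obtain ⟨B1, hB1⟩ : ∃ B : ℝ, B = S * 2 ^ Fintype.card M * (6 ^ h * (1 / N ^ L)) := ⟨_, rfl⟩
  obtain ⟨B2, hB2⟩ : ∃ B : ℝ, B = ((S * (Fintype.card J + S + 1) : ℕ) : ℝ) ^ 2 *
    2 ^ Fintype.card M * c ^ (2 * L) * ((12 * (1 / N)) ^ (h + 1) + D * (1 / N) ^ (h + 1)) :=
    ⟨_, rfl⟩
  rw [← hB1] at h3 hall
  rw [← hB2] at h4 hall
  have hB10 : 0 ≤ B1 := by rw [hB1]; positivity
  have hB20 : 0 ≤ B2 := by rw [hB2]; positivity
  have hRR : (Fintype.card R : ℝ) ≤ R' := by exact_mod_cast hR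
  have g1 : (Fintype.card R : ℝ) * (q ^ v * (B1 + B2)) ≤ q ^ v * (1 / 4) := by
    calc (Fintype.card R : ℝ) * (q ^ v * (B1 + B2)) ≤ R' * (q ^ v * (B1 + B2)) :=
          mul_le_mul_of_nonneg_right hRR (by positivity)
      _ = q ^ v * (R' * B1 + R' * B2) := by ring
      _ ≤ q ^ v * (1 / 4) := by
        apply mul_le_mul_of_nonneg_left _ hvp.le
        linarith
  linarith

end Csp

end Pool.Agent.W952.B
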