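import Pool.Agent.W494.Emb3U

/-!
# Embedding with tokens of sparse constraint systems into `k`-CNF formulas
-/

set_option autoImplicit false

namespace Pool.Agent.W952.B

open Finset Pool.Agent.H596R2.D3

section

variable {M W : Type} {k q : ℕ}

/-- variables: digits, chains, three layers, tokens -/
abbrev VE (M W : Type) (k q : ℕ) : Type :=
  (W × Fin q) ⊕ (W × Fin (q + 1)) ⊕ (((M × Fin k) × Fin q) × Fin 3) ⊕ (M × Fin 5)

/-- digit variables -/
abbrev vz (M : Type) {W : Type} (k : ℕ) {q : ℕ} (j : W) (a : Fin q) : VE M W k q := Sum.inl (j, a)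

/-- chain variables -/
abbrev vc (M : Type) {W : Type} (k : ℕ) {q : ℕ} (j : W) (d : Fin (q + 1)) : VE M W k q :=
  Sum.inr (Sum.inl (j, d))

/-- layer variables -/
abbrev vl {M : Type} (W : Type) {k q : ℕ} (p : M × Fin k) (a : Fin q) (u : Fin 3) : VE M W k q :=
  Sum.inr (Sum.inr (Sum.inl ((p, a), u)))

/-- token variables -/
abbrev ve {M : Type} (W : Type) (k q : ℕ) (i : M) (u : Fin 5) : VE M W k q :=
  Sum.inr (Sum.inr (Sum.inr (i, u)))

/-- Fixed clauses. -/
def fxE (op : Fin q → Fin q → Fin q) (nb : M × Fin k → Fin 3 → W) (sc : M → Fin 3 → W) :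
    Set (Finset (VE M W k q × Bool)) := by
  classical
  exact {c | (∃ j : W, c = {(vc M k j 0, true)}) ∨
    (∃ (j : W) (d : Fin q), c = {(vc M k j d.castSucc, false), (vz M k j d, true),
      (vc M k j d.succ, true)}) ∨
    (∃ j : W, c = {(vc M k j (Fin.last q), false)}) ∨
    (∃ (p : M × Fin k) (a b : Fin q), c = {(vz M k (nb p 0) a, false),
      (vz M k (nb p 1) b, false), (vl W p (op a b) 0, true)}) ∨
    (∃ (p : M × Fin k) (a b : Fin q), c = {(vl W p a 0, false),
      (vz M k (nb p 2) b, false), (vl W p (op a b) 1, true)}) ∨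
    (∃ (p : M × Fin k) (a : Fin q), c = {(vl W p a 1, false),
      (ve W k q p.1 3, true), (vl W p a 2, true)}) ∨
    (∃ i : M, c = {(ve W k q i 3, false), (ve W k q i 0, true), (ve W k q i 4, true)}) ∨
    (∃ i : M, c = {(ve W k q i 4, false), (ve W k q i 1, true), (ve W k q i 2, true)}) ∨
    ∃ (i i' : M) (u u' : Fin 3), i ≠ i' ∧ sc i u = sc i' u' ∧
      c = {(ve W k q i (u.castLE (by norm_num)), false),
        (ve W k q i' (u'.castLE (by norm_num)), false)}}

/-- Position clauses. -/
noncomputable def clE (M W : Type) (k q : ℕ) (t : M × (Fin k → Fin q)) :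
    Finset (VE M W k q × Bool) := by
  classical
  exact univ.image (fun l : Fin k => (vl W (t.1, l) (t.2 l) 2, false))

theorem clE_inj (hk : 0 < k) : Function.Injective (clE M W k q) := by
  classical
  rintro ⟨i, τ⟩ ⟨i', τ'⟩ h
  have hmem : ∀ l : Fin k, i = i' ∧ τ l = τ' l := by
    intro l
    have h1 : ((vl W (i, l) (τ l) 2 : VE M W k q), false) ∈ clE M W k q (i', τ') := by
      rw [← h]
      unfold clE
      exact mem_image.mpr ⟨l, mem_univ _, rfl⟩
    unfold clE at h1
    obtain ⟨l', _, hl'⟩ := mem_image.mp h1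
    simp only [Prod.mk.injEq, Sum.inr.injEq, Sum.inl.injEq, and_true] at hl'
    obtain ⟨⟨h2, h3⟩, h4⟩ := hl'
    subst h3
    exact ⟨h2.symm, h4.symm⟩
  have hi : i = i' := (hmem ⟨0, hk⟩).1
  have hc : τ = τ' := funext fun l => (hmem l).2
  rw [hi, hc]

theorem clE_card (t : M × (Fin k → Fin q)) : (clE M W k q t).card ≤ k := by
  classical
  unfold clE
  refine card_image_le.trans ?_
  rw [card_univ, Fintype.card_fin]

theorem fxE_card (hk : 3 ≤ k) (op : Fin q → Fin q → Fin q) (nb : M × Fin k → Fin 3 → W)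
    (sc : M → Fin 3 → W) : ∀ c ∈ fxE op nb sc, c.card ≤ k := by
  classical
  rintro c (⟨j, rfl⟩ | ⟨j, d, rfl⟩ | ⟨j, rfl⟩ | ⟨p, a, b, rfl⟩ | ⟨p, a, b, rfl⟩ | ⟨p, a, rfl⟩ |
    ⟨i, rfl⟩ | ⟨i, rfl⟩ | ⟨i, i', u, u', _, _, rfl⟩)
  · rw [card_singleton]; omega
  · exact card_le_three.trans hk
  · rw [card_singleton]; omega
  · exact card_le_three.trans hk
  · exact card_le_three.trans hk
  · exact card_le_three.trans hk
  · exact card_le_three.trans hk
  · exact card_le_three.trans hk
  · exact card_le_two.trans (by omega)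

theorem three {α : Type} {x : α → Bool} {c : Finset (α × Bool)} {l1 l2 l3 : α × Bool}
    (h : ∃ l ∈ c, x l.1 = l.2) (hc : ∀ l ∈ c, l = l1 ∨ l = l2 ∨ l = l3) :
    x l1.1 = l1.2 ∨ x l2.1 = l2.2 ∨ x l3.1 = l3.2 := by
  obtain ⟨l, hl, hx⟩ := h
  rcases hc l hl with rfl | rfl | rfl
  · exact Or.inl hx
  · exact Or.inr (Or.inl hx)
  · exact Or.inr (Or.inr hx)

/-- from a solution of the clauses -/
theorem solE (op : Fin q → Fin q → Fin q) (nb : M × Fin k → Fin 3 → W) (sc : M → Fin 3 → W)
    (w : (M × (Fin k → Fin q)) → Bool) (x : VE M W k q → Bool)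
    (hx1 : ∀ c ∈ fxE op nb sc, ∃ l ∈ c, x l.1 = l.2)
    (hx2 : ∀ t, xor (w t) true = true → ∃ l ∈ clE M W k q t, x l.1 = l.2) :
    ∃ z : W → Fin q, ∃ e : M → Option (Fin 3),
      (∀ i i' u u', e i = some u → e i' = some u' → sc i u = sc i' u' → i = i') ∧
      ∀ i : M, e i = none →
        w (i, fun l => op (op (z (nb (i, l) 0)) (z (nb (i, l) 1))) (z (nb (i, l) 2))) = true := by
  classical
  have hc0 : ∀ j, x (vc M k j 0) = true := by
    intro j
    obtain ⟨l, hl, hxl⟩ := hx1 _ (Or.inl ⟨j, rfl⟩)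
    rw [mem_singleton.mp hl] at hxl
    exact hxl
  have hc1 : ∀ j (d : Fin q), x (vc M k j d.castSucc) = false ∨
      x (vz M k j d) = true ∨ x (vc M k j d.succ) = true := by
    intro j d
    exact three (hx1 _ (Or.inr (Or.inl ⟨j, d, rfl⟩))) (fun l hl => by simpa using hl)
  have hc2 : ∀ j, x (vc M k j (Fin.last q)) = false := by
    intro j
    obtain ⟨l, hl, hxl⟩ := hx1 _ (Or.inr (Or.inr (Or.inl ⟨j, rfl⟩)))
    rw [mem_singleton.mp hl] at hxl
    exact hxl
  have hP : ∀ (p : M × Fin k) (a b : Fin q), x (vz M k (nb p 0) a) = false ∨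
      x (vz M k (nb p 1) b) = false ∨ x (vl W p (op a b) 0) = true := by
    intro p a b
    exact three (hx1 _ (Or.inr (Or.inr (Or.inr (Or.inl ⟨p, a, b, rfl⟩)))))
      (fun l hl => by simpa using hl)
  have hQ : ∀ (p : M × Fin k) (a b : Fin q), x (vl W p a 0) = false ∨
      x (vz M k (nb p 2) b) = false ∨ x (vl W p (op a b) 1) = true := by
    intro p a b
    exact three (hx1 _ (Or.inr (Or.inr (Or.inr (Or.inr (Or.inl ⟨p, a, b, rfl⟩))))))
      (fun l hl => by simpa using hl)
  have hR : ∀ (p : M × Fin k) (a : Fin q), x (vl W p a 1) = false ∨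
      x (ve W k q p.1 3) = true ∨ x (vl W p a 2) = true := by
    intro p a
    exact three (hx1 _ (Or.inr (Or.inr (Or.inr (Or.inr (Or.inr (Or.inl ⟨p, a, rfl⟩)))))))
      (fun l hl => by simpa using hl)
  have hV : ∀ i : M, x (ve W k q i 3) = false ∨ x (ve W k q i 0) = true ∨
      x (ve W k q i 4) = true := by
    intro i
    exact three (hx1 _ (Or.inr (Or.inr (Or.inr (Or.inr (Or.inr (Or.inr (Or.inl ⟨i, rfl⟩))))))))
      (fun l hl => by simpa using hl)
  have hV' : ∀ i : M, x (ve W k q i 4) = false ∨ x (ve W k q i 1) = true ∨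
      x (ve W k q i 2) = true := by
    intro i
    exact three (hx1 _ (Or.inr (Or.inr (Or.inr (Or.inr (Or.inr (Or.inr (Or.inr
      (Or.inl ⟨i, rfl⟩))))))))) (fun l hl => by simpa using hl)
  have hT : ∀ (i i' : M) (u u' : Fin 3), i ≠ i' → sc i u = sc i' u' →
      x (ve W k q i (u.castLE (by norm_num))) = false ∨
        x (ve W k q i' (u'.castLE (by norm_num))) = false := by
    intro i i' u u' hi hs
    obtain ⟨l, hl, hxl⟩ := hx1 _ (Or.inr (Or.inr (Or.inr (Or.inr (Or.inr (Or.inr (Or.inr
      (Or.inr ⟨i, i', u, u', hi, hs, rfl⟩))))))))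
    simp only [mem_insert, mem_singleton] at hl
    rcases hl with rfl | rfl
    · exact Or.inl hxl
    · exact Or.inr hxl
  have hdig : ∀ j : W, ∃ a : Fin q, x (vz M k j a) = true := by
    intro j
    exact chain (fun d => x (vz M k j d)) (fun d => x (vc M k j d)) (hc0 j) (hc1 j) (hc2 j)
  choose z hz using hdig
  have htok : ∀ i : M, ∃ o : Option (Fin 3), (o = none → x (ve W k q i 3) = false) ∧
      ∀ u, o = some u → x (ve W k q i (u.castLE (by norm_num))) = true := by
    intro i
    cases hv : x (ve W k q i 3)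
    · exact ⟨none, fun _ => rfl, fun u hu => by simp at hu⟩
    · rcases hV i with h | h | h
      · rw [hv] at h; exact absurd h (by simp)
      · refine ⟨some 0, fun h' => by simp at h', fun u hu => ?_⟩
        have : u = 0 := (Option.some.inj hu).symm
        subst this
        exact h
      · rcases hV' i with h' | h' | h'
        · rw [h] at h'; exact absurd h' (by simp)
        · refine ⟨some 1, fun h'' => by simp at h'', fun u hu => ?_⟩
          have : u = 1 := (Option.some.inj hu).symm
          subst this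
          exact h'
        · refine ⟨some 2, fun h'' => by simp at h'', fun u hu => ?_⟩
          have : u = 2 := (Option.some.inj hu).symm
          subst this
          exact h'
  choose e he1 he2 using htok
  refine ⟨z, e, ?_, ?_⟩
  · intro i i' u u' hu hu' hs
    by_contra hne
    rcases hT i i' u u' hne hs with h | h
    · rw [he2 i u hu] at h; exact absurd h (by simp)
    · rw [he2 i' u' hu'] at h; exact absurd h (by simp)
  · intro i hi
    by_contra hl
    have hl' : w (i, fun l => op (op (z (nb (i, l) 0)) (z (nb (i, l) 1))) (z (nb (i, l) 2))) =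
      false := by simpa using hl
    obtain ⟨l', hl2, hxl⟩ := hx2 (i, fun l => op (op (z (nb (i, l) 0)) (z (nb (i, l) 1)))
      (z (nb (i, l) 2))) (by rw [hl']; rfl)
    unfold clE at hl2
    obtain ⟨l, _, rfl⟩ := mem_image.mp hl2
    simp only at hxl
    have h1 : x (vl W (i, l) (op (z (nb (i, l) 0)) (z (nb (i, l) 1))) 0) = true := by
      rcases hP (i, l) (z (nb (i, l) 0)) (z (nb (i, l) 1)) with h | h | h
      · rw [hz] at h; exact absurd h (by simp)
      · rw [hz] at h; exact absurd h (by simp)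
      · exact h
    have h2 : x (vl W (i, l) (op (op (z (nb (i, l) 0)) (z (nb (i, l) 1))) (z (nb (i, l) 2))) 1) =
        true := by
      rcases hQ (i, l) (op (z (nb (i, l) 0)) (z (nb (i, l) 1))) (z (nb (i, l) 2)) with h | h | h
      · rw [h1] at h; exact absurd h (by simp)
      · rw [hz] at h; exact absurd h (by simp)
      · exact h
    rcases hR (i, l) (op (op (z (nb (i, l) 0)) (z (nb (i, l) 1))) (z (nb (i, l) 2))) with h | h | h
    · rw [h2] at h; exact absurd h (by simp)
    · simp only at h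
      rw [he1 i hi] at h; exact absurd h (by simp)
    · rw [hxl] at h; exact absurd h (by simp)

/-- the assignment -/
def asg (op : Fin q → Fin q → Fin q) (nb : M × Fin k → Fin 3 → W) (z : W → Fin q)
    (e : M → Option (Fin 3)) : VE M W k q → Bool := fun y =>
  match y with
  | Sum.inl (j, a) => decide (a = z j)
  | Sum.inr (Sum.inl (j, d)) => decide (d.val ≤ (z j).val)
  | Sum.inr (Sum.inr (Sum.inl ((p, a), u))) =>
    if u = 0 then decide (a = op (z (nb p 0)) (z (nb p 1)))
    else if u = 1 then decide (a = op (op (z (nb p 0)) (z (nb p 1))) (z (nb p 2)))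
    else decide (a = op (op (z (nb p 0)) (z (nb p 1))) (z (nb p 2)) ∧ e p.1 = none)
  | Sum.inr (Sum.inr (Sum.inr (i, u))) =>
    if u = 3 then decide (e i ≠ none)
    else if u = 4 then decide (e i = some 1 ∨ e i = some 2)
    else decide (∃ v : Fin 3, u = v.castLE (by norm_num) ∧ e i = some v)

theorem asg_sol (hk : 0 < k) (op : Fin q → Fin q → Fin q) (nb : M × Fin k → Fin 3 → W) (sc : M → Fin 3 → W)
    (w : (M × (Fin k → Fin q)) → Bool) (z : W → Fin q) (e : M → Option (Fin 3))
    (h1 : ∀ i i' u u', e i = some u → e i' = some u' → sc i u = sc i' u' → i = i')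
    (h2 : ∀ i : M, e i = none →
        w (i, fun l => op (op (z (nb (i, l) 0)) (z (nb (i, l) 1))) (z (nb (i, l) 2))) = true) :
    (∀ c ∈ fxE op nb sc, ∃ l ∈ c, asg op nb z e l.1 = l.2) ∧
      ∀ t, xor (w t) true = true → ∃ l ∈ clE M W k q t, asg op nb z e l.1 = l.2 := by
  classical
  have hve : ∀ (i : M) (u : Fin 3), asg op nb z e (ve W k q i (u.castLE (by norm_num))) =
      decide (e i = some u) := by
    intro i u
    simp only [asg]
    rw [if_neg (by fin_cases u <;> decide), if_neg (by fin_cases u <;> decide)]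
    congr 1
    apply propext
    constructor
    · rintro ⟨v, hv, hev⟩
      have : u = v := by
        apply Fin.ext
        have := congrArg Fin.val hv
        simpa using this
      rw [this]; exact hev
    · intro h
      exact ⟨u, rfl, h⟩
  refine ⟨?_, ?_⟩
  · rintro c (⟨j, rfl⟩ | ⟨j, d, rfl⟩ | ⟨j, rfl⟩ | ⟨p, a, b, rfl⟩ | ⟨p, a, b, rfl⟩ | ⟨p, a, rfl⟩ |
      ⟨i, rfl⟩ | ⟨i, rfl⟩ | ⟨i, i', u, u', hi, hs, rfl⟩)
    · exact ⟨_, mem_singleton_self _, by simp [asg]⟩
    · by_cases h3 : d.val ≤ (z j).val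
      · by_cases h4 : d = z j
        · exact ⟨(vz M k j d, true), by simp, by simp [asg, h4]⟩
        · refine ⟨(vc M k j d.succ, true), by simp, ?_⟩
          simp only [asg, decide_eq_true_eq, Fin.val_succ]
          have : d.val ≠ (z j).val := fun h => h4 (Fin.ext h)
          omega
      · refine ⟨(vc M k j d.castSucc, false), by simp, ?_⟩
        simp only [asg, decide_eq_false_iff_not, Fin.val_castSucc]
        exact h3
    · refine ⟨_, mem_singleton_self _, ?_⟩
      simp only [asg, decide_eq_false_iff_not, Fin.val_last, not_le]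
      exact (z j).isLt
    · by_cases h3 : a = z (nb p 0)
      · by_cases h4 : b = z (nb p 1)
        · exact ⟨(vl W p (op a b) 0, true), by simp, by simp [asg, h3, h4]⟩
        · exact ⟨(vz M k (nb p 1) b, false), by simp, by simp [asg, h4]⟩
      · exact ⟨(vz M k (nb p 0) a, false), by simp, by simp [asg, h3]⟩
    · by_cases h3 : a = op (z (nb p 0)) (z (nb p 1))
      · by_cases h4 : b = z (nb p 2)
        · exact ⟨(vl W p (op a b) 1, true), by simp, by simp [asg, h3, h4]⟩
        · exact ⟨(vz M k (nb p 2) b, false), by simp, by simp [asg, h4]⟩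
      · exact ⟨(vl W p a 0, false), by simp, by simp [asg, h3]⟩
    · by_cases h3 : a = op (op (z (nb p 0)) (z (nb p 1))) (z (nb p 2))
      · by_cases h4 : e p.1 = none
        · exact ⟨(vl W p a 2, true), by simp, by simp [asg, h3, h4]⟩
        · exact ⟨(ve W k q p.1 3, true), by simp, by simp [asg, h4]⟩
      · exact ⟨(vl W p a 1, false), by simp, by simp [asg, h3]⟩
    · rcases hi : e i with _ | u
      · exact ⟨(ve W k q i 3, false), by simp, by simp [asg, hi]⟩
      · fin_cases u
        · refine ⟨(ve W k q i 0, true), by simp, ?_⟩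
          have := hve i 0
          rw [show ((0 : Fin 3).castLE (by norm_num) : Fin 5) = 0 from rfl] at this
          rw [this, hi]; rfl
        · exact ⟨(ve W k q i 4, true), by simp, by simp [asg, hi]⟩
        · exact ⟨(ve W k q i 4, true), by simp, by simp [asg, hi]⟩
    · by_cases h3 : e i = some 1
      · refine ⟨(ve W k q i 1, true), by simp, ?_⟩
        have := hve i 1
        rw [show ((1 : Fin 3).castLE (by norm_num) : Fin 5) = 1 from rfl] at this
        rw [this, h3]; rfl
      · by_cases h4 : e i = some 2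
        · refine ⟨(ve W k q i 2, true), by simp, ?_⟩
          have := hve i 2
          rw [show ((2 : Fin 3).castLE (by norm_num) : Fin 5) = 2 from rfl] at this
          rw [this, h4]; rfl
        · exact ⟨(ve W k q i 4, false), by simp, by simp [asg, h3, h4]⟩
    · by_cases h3 : e i = some u
      · refine ⟨(ve W k q i' (u'.castLE (by norm_num)), false), by simp, ?_⟩
        rw [hve i' u', decide_eq_false_iff_not]
        intro h4
        exact hi (h1 i i' u u' h3 h4 hs)
      · refine ⟨(ve W k q i (u.castLE (by norm_num)), false), by simp, ?_⟩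
        rw [hve i u, decide_eq_false_iff_not]
        exact h3
  · rintro ⟨i, τ⟩ hq
    have hw : w (i, τ) = false := by
      cases hh : w (i, τ) <;> simp_all
    by_cases hi : e i = none
    · have hne : τ ≠ fun l => op (op (z (nb (i, l) 0)) (z (nb (i, l) 1))) (z (nb (i, l) 2)) := by
        rintro rfl
        rw [h2 i hi] at hw
        exact absurd hw (by simp)
      obtain ⟨l, hl⟩ := Function.ne_iff.mp hne
      refine ⟨(vl W (i, l) (τ l) 2, false), ?_, ?_⟩
      · unfold clE
        exact mem_image.mpr ⟨l, mem_univ _, rfl⟩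
      · simp [asg, hl]
    · refine ⟨(vl W (i, ⟨0, hk⟩) (τ ⟨0, hk⟩) 2, false), ?_, ?_⟩
      · unfold clE
        exact mem_image.mpr ⟨⟨0, hk⟩, mem_univ _, rfl⟩
      · simp [asg, hi]

end

theorem emb2 {n k q : ℕ} {M W : Type} [Fintype M] [DecidableEq M] [Fintype W] [DecidableEq W]
    (op : Fin q → Fin q → Fin q) (hk : 3 ≤ k) (nb : M × Fin k → Fin 3 → W) (sc : M → Fin 3 → W)
    (hn : Fintype.card W * (2 * q + 1) + 3 * (Fintype.card M * k * q) + 5 * Fintype.card M ≤ n) :
    ∃ X : ((M × (Fin k → Fin q)) → Bool) → Clause n k → Bool, IsProj X ∧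
      ∀ w, Satisfiable (X w) ↔ ∃ z : W → Fin q, ∃ e : M → Option (Fin 3),
        (∀ i i' u u', e i = some u → e i' = some u' → sc i u = sc i' u' → i = i') ∧
        ∀ i : M, e i = none →
          w (i, fun l => op (op (z (nb (i, l) 0)) (z (nb (i, l) 1))) (z (nb (i, l) 2))) = true := by
  have hcard : Fintype.card (VE M W k q) ≤ Fintype.card (Fin n) := by
    simp only [Fintype.card_sum, Fintype.card_prod, Fintype.card_fin]
    refine le_trans (le_of_eq ?_) hn
    ring
  obtain ⟨f⟩ := Function.Embedding.nonempty_of_card_le hcard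
  obtain ⟨X, hX, hsem, _⟩ := Pool.Agent.W494.embedU (k := k) f f.injective (fxE op nb sc)
    (clE M W k q) (fxE_card hk op nb sc)
    clE_card
    (clE_inj (by omega)) true
  refine ⟨X, hX, ?_⟩
  intro w
  rw [hsem]
  constructor
  · rintro ⟨x, hx1, hx2⟩
    exact solE op nb sc w x hx1 hx2
  · rintro ⟨z, e, h1, h2⟩
    exact ⟨asg op nb z e, asg_sol (by omega) op nb sc w z e h1 h2⟩

end Pool.Agent.W952.B
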