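import Mathlib

/-!
Choice of the parameters (adapted from `Pool.Agent.W951.AC.Asym`).
-/

set_option autoImplicit false
set_option linter.unusedSectionVars false

namespace Pool.Agent.W952.B

open Filter

lemma par_ev (γ : ℝ) (hγ : 0 < γ) (B : ℝ) : ∀ᶠ n : ℕ in atTop, B ≤ (n : ℝ) ^ γ :=
  ((tendsto_rpow_atTop hγ).comp tendsto_natCast_atTop_atTop).eventually_ge_atTop B

/-- The parameters. -/
theorem params8 (k D : ℕ) (hk : 3 ≤ k) (α₀ α : ℝ) (hα₀ : 0 < α₀) (hα₁ : α₀ < α) (hα2 : α < 1)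
    (hα : α * D < (1 - α) * k) :
    ∃ b C : ℕ, 1 ≤ b ∧ 4 * b ≤ C ∧ ∀ κ : ℝ, 0 < κ → ∃ n₀ : ℕ, ∀ n : ℕ, n₀ ≤ n →
      ∃ t Y L h S : ℕ, ∃ N : ℝ, 1 ≤ t ∧ 4 ≤ Y ∧ 2 ≤ L ∧ 1 ≤ h ∧ 36 ≤ N ∧
        3 * t * (2 * Y ^ b + 1) + 8 * (3 * (t * C) * k * Y ^ b) ≤ n ∧
        ((k * (2 * L) : ℕ) : ℝ) ≤ κ * t ∧ 4 * L ≤ 3 * (t * C) ∧
        2 * Y * N * (12 * h * N) ^ D * N ≤ ((Y ^ b : ℕ) : ℝ) ^ k ∧
        ((2 * (2 * n + 1) ^ k + S : ℕ) : ℝ) *
          ((S : ℝ) * 2 ^ (3 * (t * C)) * (6 ^ h * (1 / N ^ L))) ≤ 1 / 8 ∧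
        ((2 * (2 * n + 1) ^ k + S : ℕ) : ℝ) *
          (((S * (2 * (2 * n + 1) ^ k + S + 1) : ℕ) : ℝ) ^ 2 * 2 ^ (3 * (t * C)) *
          (2 * Y * N * (12 * h * N) ^ D) ^ (2 * L) *
          ((12 * (1 / N)) ^ (h + 1) + D * (1 / N) ^ (h + 1))) ≤ 1 / 8 ∧
        2 * (2 : ℝ) ^ ((n : ℝ) ^ α₀) ≤ S := by
  have hα0 : 0 < α := hα₀.trans hα₁
  have hkR : (3 : ℝ) ≤ k := by exact_mod_cast hk
  have hk0 : (0 : ℝ) < k := by linarith
  have h1α : 0 < 1 - α := by linarith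
  have hD0 : (0 : ℝ) ≤ D := Nat.cast_nonneg D
  obtain ⟨g, hg⟩ : ∃ g : ℝ, g = (1 - α) * k - α * D := ⟨_, rfl⟩
  have hg0 : 0 < g := by rw [hg]; linarith
  -- choice of b
  obtain ⟨b, hb1, hb⟩ : ∃ b : ℕ, 1 ≤ b ∧ 4 * (1 - α) / g < b := by
    obtain ⟨b, hb⟩ := exists_nat_gt (4 * (1 - α) / g)
    refine ⟨b + 1, by omega, ?_⟩
    push_cast
    linarith
  have hbR : (1 : ℝ) ≤ b := by exact_mod_cast hb1
  have hb0 : (0 : ℝ) < b := by linarith
  have hbg : 4 * ((1 - α) / b) ≤ g := by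
    rw [div_lt_iff₀ hg0] at hb
    rw [mul_div_assoc', div_le_iff₀ hb0]
    linarith
  -- choice of δ
  obtain ⟨δ, hδ⟩ : ∃ δ : ℝ, δ = g / (4 * (D + 3)) := ⟨_, rfl⟩
  have hδ0 : 0 < δ := by rw [hδ]; positivity
  have hδg : 4 * ((D + 3) * δ) = g := by rw [hδ]; field_simp
  -- choice of C, K and A
  obtain ⟨C, hC⟩ : ∃ C : ℕ, C = 4 * b := ⟨_, rfl⟩
  have hC1 : 1 ≤ C := by omega
  obtain ⟨K, hK⟩ : ∃ K : ℕ, K = 9 + 24 * C * k := ⟨_, rfl⟩
  have hK1 : 1 ≤ K := by omega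
  have hKR : (K : ℝ) = 9 + 24 * C * k := by rw [hK]; push_cast; ring
  have hK1R : (1 : ℝ) ≤ K := by exact_mod_cast hK1
  have hK0 : (0 : ℝ) < K := by linarith
  obtain ⟨A, hA⟩ := exists_nat_gt ((k + 1) / δ)
  have hA1 : 1 ≤ A := by
    rcases Nat.eq_zero_or_pos A with h | h
    · subst h
      have : (0 : ℝ) < (k + 1) / δ := by positivity
      simp only [Nat.cast_zero] at hA
      linarith
    · exact h
  have hAδ : (k : ℝ) + 1 ≤ δ * A := by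
    rw [div_lt_iff₀ hδ0] at hA
    rw [mul_comm δ]
    exact hA.le
  refine ⟨b, C, hb1, by omega, ?_⟩
  intro κ₀ hκ₀
  obtain ⟨κ, hκ⟩ : ∃ κ : ℝ, κ = min κ₀ 1 := ⟨_, rfl⟩
  have hκ0 : 0 < κ := by rw [hκ]; exact lt_min hκ₀ one_pos
  have hκ1 : κ ≤ 1 := by rw [hκ]; exact min_le_right _ _
  have hκ2 : κ ≤ κ₀ := by rw [hκ]; exact min_le_left _ _
  -- constants
  obtain ⟨G1, hG1⟩ : ∃ G : ℝ, G = 8 * 2 ^ (3 * C) * 6 ^ A := ⟨_, rfl⟩
  obtain ⟨G2, hG2⟩ : ∃ G : ℝ, G = 256 * 2 ^ (3 * C) * 12 ^ A := ⟨_, rfl⟩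
  have hG10 : 0 < G1 := by rw [hG1]; positivity
  have hG20 : 0 < G2 := by rw [hG2]; positivity
  have ev7 : ∀ᶠ n : ℕ in atTop, 4 * (2 * (n : ℝ) + 1) ^ k ≤ 2 ^ ((n : ℝ) ^ α / 2) := by
    have hb : 0 < Real.log 2 / 2 := by have := Real.log_pos (by norm_num : (1:ℝ) < 2); linarith
    have h1 := tendsto_rpow_mul_exp_neg_mul_atTop_nhds_zero ((k : ℝ) / α) (Real.log 2 / 2) hb
    have h2 : Tendsto (fun n : ℕ => (n : ℝ) ^ α) atTop atTop :=
      (tendsto_rpow_atTop hα0).comp tendsto_natCast_atTop_atTop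
    have h3 := (h1.comp h2).eventually (eventually_le_nhds
      (by positivity : (0 : ℝ) < 1 / (4 * 3 ^ k)))
    filter_upwards [h3, eventually_ge_atTop 1] with n hn hn1
    have hn1' : (1 : ℝ) ≤ n := by exact_mod_cast hn1
    have hn0 : (0 : ℝ) < n := by linarith
    simp only [Function.comp_apply] at hn
    rw [← Real.rpow_mul hn0.le, mul_div_cancel₀ _ hα0.ne', Real.rpow_natCast] at hn
    have h4 : (2 : ℝ) ^ ((n : ℝ) ^ α / 2) = Real.exp (Real.log 2 / 2 * (n : ℝ) ^ α) := by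
      rw [Real.rpow_def_of_pos (by norm_num)]
      congr 1
      ring
    rw [h4]
    have h5 : (n : ℝ) ^ k * Real.exp (-(Real.log 2 / 2) * (n : ℝ) ^ α) *
        Real.exp (Real.log 2 / 2 * (n : ℝ) ^ α) = (n : ℝ) ^ k := by
      rw [mul_assoc, ← Real.exp_add]
      simp
    have h6 : (n : ℝ) ^ k ≤ 1 / (4 * 3 ^ k) * Real.exp (Real.log 2 / 2 * (n : ℝ) ^ α) := by
      rw [← h5]
      exact mul_le_mul_of_nonneg_right hn (Real.exp_pos _).le
    calc 4 * (2 * (n : ℝ) + 1) ^ k ≤ 4 * (3 * (n : ℝ)) ^ k := by gcongr; linarith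
      _ = (4 * 3 ^ k) * (n : ℝ) ^ k := by rw [mul_pow]; ring
      _ ≤ (4 * 3 ^ k) * (1 / (4 * 3 ^ k) * Real.exp (Real.log 2 / 2 * (n : ℝ) ^ α)) := by
        gcongr
      _ = Real.exp (Real.log 2 / 2 * (n : ℝ) ^ α) := by field_simp
  have ev8 : ∀ᶠ n : ℕ in atTop, (n : ℝ) ^ α₀ + 2 ≤ (n : ℝ) ^ α / 2 := by
    filter_upwards [par_ev (α - α₀) (by linarith) 6, par_ev α₀ hα₀ 1,
      eventually_ge_atTop 1] with n h1 h2 hn1
    have hn0 : (0 : ℝ) < n := by exact_mod_cast hn1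
    have h3 : (n : ℝ) ^ α = (n : ℝ) ^ α₀ * (n : ℝ) ^ (α - α₀) := by
      rw [← Real.rpow_add hn0]; congr 1; ring
    rw [h3]
    have h4 := mul_le_mul_of_nonneg_left h1 (by linarith : (0 : ℝ) ≤ (n : ℝ) ^ α₀)
    linarith
  have hall : ∀ᶠ n : ℕ in atTop, (36 ≤ (n : ℝ) ^ δ ∧ 32 * k / κ ≤ (n : ℝ) ^ α ∧
      8 * (K : ℝ) ≤ (n : ℝ) ^ ((1 - α) / b) ∧ 8 * G1 ≤ (n : ℝ) ^ (δ * κ / (8 * k))) ∧
      (8 * (D + 1) * G2 + 16 ≤ (n : ℝ) ^ (1 : ℝ) ∧
      2 * (12 * (A : ℝ)) ^ D * (2 * (K : ℝ)) ^ (b * k - 1) ≤ (n : ℝ) ^ (g / 2)) ∧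
      (4 * (2 * (n : ℝ) + 1) ^ k ≤ 2 ^ ((n : ℝ) ^ α / 2) ∧
      (n : ℝ) ^ α₀ + 2 ≤ (n : ℝ) ^ α / 2) :=
    ((par_ev δ hδ0 36).and ((par_ev α hα0 _).and ((par_ev ((1 - α) / b) (by positivity) _).and
      (par_ev (δ * κ / (8 * k)) (by positivity) _)))).and
      (((par_ev 1 one_pos _).and (par_ev (g / 2) (by positivity) _)).and (ev7.and ev8))
  obtain ⟨n₀, hn₀⟩ := eventually_atTop.1 hall
  refine ⟨n₀, fun n hn => ?_⟩
  obtain ⟨⟨f1, f2, f3, f4⟩, ⟨f5, f6⟩, f7, f8⟩ := hn₀ n hn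
  rw [Real.rpow_one] at f5
  obtain ⟨x, hx⟩ : ∃ x : ℝ, x = n := ⟨_, rfl⟩
  rw [← hx] at f1 f2 f3 f4 f5 f6 f7 f8
  have hx16 : 16 ≤ x := by
    have := mul_pos (mul_pos (by norm_num : (0:ℝ) < 8) (by positivity : (0:ℝ) < D + 1)) hG20
    linarith
  have hx0 : 0 < x := by linarith
  have hx1 : 1 ≤ x := by linarith
  -- t
  obtain ⟨t, ht⟩ : ∃ t : ℕ, t = ⌊x ^ α⌋₊ := ⟨_, rfl⟩
  have hxα0 : 0 < x ^ α := Real.rpow_pos_of_pos hx0 α
  have ht_le : (t : ℝ) ≤ x ^ α := by rw [ht]; exact Nat.floor_le hxα0.le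
  have ht_ge1 : x ^ α - 1 ≤ t := by
    rw [ht]; have := Nat.lt_floor_add_one (x ^ α); linarith
  have hxα16 : 16 ≤ x ^ α := by
    refine le_trans ?_ f2
    rw [le_div_iff₀ hκ0]
    linarith
  have ht_ge : x ^ α / 2 ≤ t := by linarith
  have ht1 : (1 : ℝ) ≤ t := by linarith
  have ht1' : 1 ≤ t := by exact_mod_cast ht1
  -- Y
  obtain ⟨w, hw⟩ : ∃ w : ℝ, w = x ^ (1 - α) := ⟨_, rfl⟩
  have hw0 : 0 < w := by rw [hw]; exact Real.rpow_pos_of_pos hx0 _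
  have hxw : x ^ α * w = x := by
    rw [hw, ← Real.rpow_add hx0]
    simp
  obtain ⟨u, hu⟩ : ∃ u : ℝ, u = x ^ ((1 - α) / b) := ⟨_, rfl⟩
  have hu0 : 0 < u := by rw [hu]; exact Real.rpow_pos_of_pos hx0 _
  have hub : u ^ b = w := by
    rw [hu, hw, ← Real.rpow_natCast, ← Real.rpow_mul hx0.le]
    congr 1
    field_simp
  rw [← hu] at f3
  obtain ⟨Y, hY⟩ : ∃ Y : ℕ, Y = ⌊u / K⌋₊ := ⟨_, rfl⟩
  have hY_le : (Y : ℝ) ≤ u / K := by rw [hY]; exact Nat.floor_le (by positivity)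
  have hY_ge : u / (2 * K) ≤ Y := by
    have h1 : u / K - 1 ≤ Y := by
      rw [hY]; have := Nat.lt_floor_add_one (u / K); linarith
    have h2 : 1 ≤ u / (2 * K) := by rw [le_div_iff₀ (by positivity)]; linarith
    have h3 : u / K = 2 * (u / (2 * K)) := by field_simp
    linarith
  have hY4R : (4 : ℝ) ≤ Y := by
    have h2 : 4 ≤ u / (2 * K) := by rw [le_div_iff₀ (by positivity)]; linarith
    linarith
  have hY4 : 4 ≤ Y := by exact_mod_cast hY4R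
  have hY1R : (1 : ℝ) ≤ Y := by linarith
  have hYb : (Y : ℝ) ^ b ≤ w / K := by
    calc (Y : ℝ) ^ b ≤ (u / K) ^ b := by gcongr
      _ = w / K ^ b := by rw [div_pow, hub]
      _ ≤ w / K := by
        apply div_le_div_of_nonneg_left hw0.le hK0
        calc (K : ℝ) = (K : ℝ) ^ 1 := (pow_one _).symm
          _ ≤ (K : ℝ) ^ b := pow_le_pow_right₀ hK1R hb1
  have hYb1 : (1 : ℝ) ≤ (Y : ℝ) ^ b := one_le_pow₀ hY1R
  -- N
  obtain ⟨N, hN⟩ : ∃ N : ℝ, N = x ^ δ := ⟨_, rfl⟩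
  rw [← hN] at f1
  have hN0 : 0 < N := by linarith
  have hN1 : 1 ≤ N := by linarith
  -- L
  obtain ⟨L, hL⟩ : ∃ L : ℕ, L = ⌊κ * t / (4 * k)⌋₊ := ⟨_, rfl⟩
  have hκt : 16 * k ≤ κ * t := by
    have h1 : 16 * k / κ ≤ t := by
      refine le_trans ?_ ht_ge
      have : 16 * k / κ = (32 * k / κ) / 2 := by ring
      rw [this]; linarith
    rwa [div_le_iff₀ hκ0, mul_comm (t : ℝ)] at h1
  have hL_le : (L : ℝ) ≤ κ * t / (4 * k) := by rw [hL]; exact Nat.floor_le (by positivity)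
  have hq : 2 ≤ κ * t / (8 * k) := by
    rw [le_div_iff₀ (by positivity)]; linarith
  have hL_ge : κ * t / (8 * k) ≤ L := by
    have h1 : κ * t / (4 * k) - 1 ≤ L := by
      rw [hL]; have := Nat.lt_floor_add_one (κ * t / (4 * k)); linarith
    have h3 : κ * t / (4 * k) = 2 * (κ * t / (8 * k)) := by field_simp; ring
    linarith
  have hL2R : (2 : ℝ) ≤ L := by linarith
  have hL2 : 2 ≤ L := by exact_mod_cast hL2R
  have hkL : (k : ℝ) * (4 * L) ≤ κ * t := by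
    rw [le_div_iff₀ (by positivity)] at hL_le
    linarith
  have h4L : 4 * L ≤ t := by
    have : ((4 * L : ℕ) : ℝ) ≤ t := by
      push_cast
      have h5 : κ * t ≤ 1 * t := mul_le_mul_of_nonneg_right hκ1 (by positivity)
      have h6 : 0 ≤ 4 * (L : ℝ) := by positivity
      have h7 := mul_le_mul_of_nonneg_right (by linarith : (1 : ℝ) ≤ k) h6
      linarith
    exact_mod_cast this
  have hLt : 2 * L ≤ t := by omega
  -- h, S
  have hAR : (1 : ℝ) ≤ A := by exact_mod_cast hA1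
  have hbk : 1 ≤ b * k := Nat.mul_pos hb1 (by omega)
  have hcnt : 2 * Y * N * (12 * ((A * t : ℕ) : ℝ) * N) ^ D * N ≤ ((Y ^ b : ℕ) : ℝ) ^ k := by
    have e1 : 2 * Y * N * (12 * ((A * t : ℕ) : ℝ) * N) ^ D * N =
        Y * ((2 * (12 * A) ^ D) * ((t : ℝ) ^ D * N ^ (D + 2))) := by
      push_cast
      rw [show 12 * ((A : ℝ) * t) * N = (12 * A) * (t * N) by ring, mul_pow (12 * (A : ℝ)),
        mul_pow (t : ℝ)]
      ring
    have e2 : (t : ℝ) ^ D * N ^ (D + 2) ≤ x ^ (α * D + (D + 2) * δ) := by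
      calc (t : ℝ) ^ D * N ^ (D + 2) ≤ (x ^ α) ^ D * N ^ (D + 2) := by gcongr
        _ = x ^ (α * D + (D + 2) * δ) := by
          rw [hN, ← Real.rpow_natCast, ← Real.rpow_natCast, ← Real.rpow_mul hx0.le,
            ← Real.rpow_mul hx0.le, ← Real.rpow_add hx0]
          congr 1
          push_cast
          ring
    have e4 : (u / (2 * K)) ^ (b * k - 1) ≤ (Y : ℝ) ^ (b * k - 1) := by
      gcongr
    have e5 : u ^ (b * k - 1) = x ^ ((1 - α) * k - (1 - α) / b) := by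
      rw [hu, ← Real.rpow_natCast, ← Real.rpow_mul hx0.le]
      congr 1
      rw [Nat.cast_sub hbk]
      push_cast
      field_simp
    have e6 : (2 * (12 * (A : ℝ)) ^ D) * ((t : ℝ) ^ D * N ^ (D + 2)) ≤ (Y : ℝ) ^ (b * k - 1) := by
      refine le_trans ?_ e4
      rw [div_pow, le_div_iff₀ (by positivity), e5]
      calc (2 * (12 * (A : ℝ)) ^ D) * ((t : ℝ) ^ D * N ^ (D + 2)) * (2 * (K : ℝ)) ^ (b * k - 1)
          = (2 * (12 * (A : ℝ)) ^ D * (2 * (K : ℝ)) ^ (b * k - 1)) *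
            ((t : ℝ) ^ D * N ^ (D + 2)) := by ring
        _ ≤ x ^ (g / 2) * x ^ (α * D + (D + 2) * δ) := by gcongr
        _ = x ^ (g / 2 + (α * D + (D + 2) * δ)) := (Real.rpow_add hx0 _ _).symm
        _ ≤ x ^ ((1 - α) * k - (1 - α) / b) := by
          apply Real.rpow_le_rpow_of_exponent_le hx1
          have h1 : (D + 2) * δ ≤ g / 4 := by
            have h0 : (D + 3) * δ = (D + 2) * δ + δ := by ring
            linarith
          have h2 : (1 - α) / b ≤ g / 4 := by linarith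
          linarith
    rw [e1]
    calc (Y : ℝ) * ((2 * (12 * A) ^ D) * ((t : ℝ) ^ D * N ^ (D + 2)))
        ≤ Y * (Y : ℝ) ^ (b * k - 1) := by gcongr
      _ = ((Y ^ b : ℕ) : ℝ) ^ k := by
        push_cast
        rw [← pow_succ', ← pow_mul]
        congr 1
        omega
  -- the size factor
  have h2n : 2 * (2 * x + 1) ^ k ≤ 2 ^ t / 2 := by
    have h2 : (2 : ℝ) ^ (x ^ α / 2) ≤ 2 ^ t := by
      rw [← Real.rpow_natCast]
      exact Real.rpow_le_rpow_of_exponent_le (by norm_num) ht_ge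
    linarith
  have h22 : (2 : ℝ) ≤ 2 ^ t := by
    calc (2 : ℝ) = 2 ^ 1 := by norm_num
      _ ≤ 2 ^ t := pow_le_pow_right₀ (by norm_num) ht1'
  have hfac : ((2 * (2 * n + 1) ^ k + 2 ^ t : ℕ) : ℝ) ≤ 4 ^ t := by
    push_cast
    rw [← hx]
    calc 2 * (2 * x + 1) ^ k + 2 ^ t ≤ 2 * 2 ^ t := by linarith
      _ ≤ 2 ^ t * 2 ^ t := by gcongr
      _ = 4 ^ t := by rw [← mul_pow]; norm_num
  refine ⟨t, Y, L, A * t, 2 ^ t, N, ht1', hY4, hL2, Nat.mul_pos hA1 ht1', f1, ?_, ?_, ?_, ?_, ?_,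
    ?_, ?_⟩
  · -- number of variables
    have h1 : ((3 * t * (2 * Y ^ b + 1) + 8 * (3 * (t * C) * k * Y ^ b) : ℕ) : ℝ) ≤ n := by
      push_cast
      rw [← hx]
      have ht0 : (0 : ℝ) ≤ t := by positivity
      calc 3 * (t : ℝ) * (2 * (Y : ℝ) ^ b + 1) + 8 * (3 * (t * C) * k * (Y : ℝ) ^ b)
          ≤ 3 * (t : ℝ) * (2 * (Y : ℝ) ^ b + (Y : ℝ) ^ b) +
            8 * (3 * (t * C) * k * (Y : ℝ) ^ b) := by gcongr
        _ = t * (Y : ℝ) ^ b * K := by rw [hKR]; ring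
        _ ≤ x ^ α * (w / K) * K := by gcongr
        _ = x ^ α * w := by field_simp
        _ = x := hxw
    exact_mod_cast h1
  · push_cast
    have : κ * t ≤ κ₀ * t := mul_le_mul_of_nonneg_right hκ2 (by positivity)
    have h5 : (0 : ℝ) ≤ k * L := by positivity
    linarith
  · calc 4 * L ≤ t := h4L
      _ = 1 * (t * 1) := by ring
      _ ≤ 3 * (t * C) := Nat.mul_le_mul (by omega) (Nat.mul_le_mul_left _ hC1)
  · exact hcnt
  · -- first sum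
    have hNL : (N ^ (κ / (8 * k))) ^ t ≤ N ^ L := by
      rw [← Real.rpow_natCast, ← Real.rpow_natCast, ← Real.rpow_mul hN0.le]
      apply Real.rpow_le_rpow_of_exponent_le hN1
      calc κ / (8 * k) * t = κ * t / (8 * k) := by ring
        _ ≤ L := hL_ge
    have hNκ : 8 * G1 ≤ N ^ (κ / (8 * k)) := by
      refine f4.trans (le_of_eq ?_)
      rw [hN, ← Real.rpow_mul hx0.le]
      congr 1
      ring
    have e1 : (4 : ℝ) ^ t * (((2 ^ t : ℕ) : ℝ) * 2 ^ (3 * (t * C)) * (6 ^ (A * t) * (1 / N ^ L))) =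
        G1 ^ t / N ^ L := by
      have e0 : (8 : ℝ) ^ t = 4 ^ t * 2 ^ t := by rw [← mul_pow]; norm_num
      rw [hG1, mul_pow, mul_pow, ← pow_mul, ← pow_mul, e0]
      push_cast
      rw [show 3 * (t * C) = 3 * C * t by ring]
      ring
    calc ((2 * (2 * n + 1) ^ k + 2 ^ t : ℕ) : ℝ) *
          (((2 ^ t : ℕ) : ℝ) * 2 ^ (3 * (t * C)) * (6 ^ (A * t) * (1 / N ^ L)))
        ≤ (4 : ℝ) ^ t *
          (((2 ^ t : ℕ) : ℝ) * 2 ^ (3 * (t * C)) * (6 ^ (A * t) * (1 / N ^ L))) :=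
          mul_le_mul_of_nonneg_right hfac (by positivity)
      _ = G1 ^ t / N ^ L := e1
      _ ≤ G1 ^ t / (8 * G1) ^ t := by
          apply div_le_div_of_nonneg_left (by positivity) (by positivity)
          exact (pow_le_pow_left₀ (by positivity) hNκ t).trans hNL
      _ = (1 / 8) ^ t := by rw [← div_pow]; congr 1; field_simp
      _ ≤ (1 / 8) ^ 1 := pow_le_pow_of_le_one (by norm_num) (by norm_num) ht1'
      _ = 1 / 8 := by norm_num
  · -- second sum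
    obtain ⟨c, hc⟩ : ∃ c : ℝ, c = 2 * Y * N * (12 * ((A * t : ℕ) : ℝ) * N) ^ D := ⟨_, rfl⟩
    rw [← hc] at hcnt ⊢
    have hc0 : 0 ≤ c := by rw [hc]; positivity
    have hwx : w ≤ x := by
      calc w = 1 * w := (one_mul w).symm
        _ ≤ x ^ α * w := mul_le_mul_of_nonneg_right (by linarith) hw0.le
        _ = x := hxw
    have hqx : (((Y ^ b : ℕ) : ℝ)) ≤ x := by
      push_cast
      refine hYb.trans ?_
      rw [div_le_iff₀ hK0]
      exact hwx.trans (le_mul_of_one_le_right hx0.le hK1R)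
    have hcx : c ≤ x ^ k := by
      calc c ≤ c * N := le_mul_of_one_le_right hc0 hN1
        _ ≤ ((Y ^ b : ℕ) : ℝ) ^ k := hcnt
        _ ≤ x ^ k := pow_le_pow_left₀ (by positivity) hqx _
    have hcL : c ^ (2 * L) ≤ (x ^ k) ^ t := by
      calc c ^ (2 * L) ≤ (x ^ k) ^ (2 * L) := pow_le_pow_left₀ hc0 hcx _
        _ ≤ (x ^ k) ^ t := pow_le_pow_right₀ (one_le_pow₀ hx1) hLt
    -- the size factor
    have hsz : (((2 ^ t * (2 * (2 * n + 1) ^ k + 2 ^ t + 1) : ℕ) : ℝ)) ^ 2 ≤ 64 ^ t := by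
      have h3 : ((2 ^ t * (2 * (2 * n + 1) ^ k + 2 ^ t + 1) : ℕ) : ℝ) ≤ 8 ^ t := by
        push_cast
        rw [← hx]
        have h4 : 2 * (2 * x + 1) ^ k + 2 ^ t + 1 ≤ 2 * 2 ^ t := by linarith
        calc (2 : ℝ) ^ t * (2 * (2 * x + 1) ^ k + 2 ^ t + 1) ≤ 2 ^ t * (2 * 2 ^ t) := by gcongr
          _ ≤ 2 ^ t * (2 ^ t * 2 ^ t) := by gcongr
          _ = 8 ^ t := by rw [← mul_pow, ← mul_pow]; norm_num
      calc _ ≤ ((8 : ℝ) ^ t) ^ 2 := by gcongr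
        _ = 64 ^ t := by rw [← pow_mul, mul_comm, pow_mul]; norm_num
    -- the failure probability
    have h12 : 12 * (1 / N) ≤ 1 := by rw [mul_one_div, div_le_one hN0]; linarith
    have h12' : 0 ≤ 12 * (1 / N) := by positivity
    have hfl : (12 * (1 / N)) ^ (A * t + 1) + D * (1 / N) ^ (A * t + 1) ≤
        (D + 1) * (12 ^ A / x ^ (k + 1)) ^ t := by
      have h1 : (12 * (1 / N)) ^ (A * t + 1) ≤ (12 * (1 / N)) ^ (A * t) :=
        pow_le_pow_of_le_one h12' h12 (by omega)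
      have h2 : (1 / N) ^ (A * t + 1) ≤ (12 * (1 / N)) ^ (A * t) := by
        calc (1 / N) ^ (A * t + 1) ≤ (12 * (1 / N)) ^ (A * t + 1) := by
              apply pow_le_pow_left₀ (by positivity)
              have : 0 ≤ 1 / N := by positivity
              linarith
          _ ≤ _ := h1
      have h3 : (12 * (1 / N)) ^ (A * t) ≤ (12 ^ A / x ^ (k + 1)) ^ t := by
        rw [pow_mul]
        apply pow_le_pow_left₀ (by positivity)
        rw [mul_one_div, div_pow]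
        apply div_le_div_of_nonneg_left (by positivity) (by positivity)
        rw [hN, ← Real.rpow_natCast, ← Real.rpow_natCast, ← Real.rpow_mul hx0.le]
        apply Real.rpow_le_rpow_of_exponent_le hx1
        push_cast
        exact hAδ
      have h4 : (D : ℝ) * (1 / N) ^ (A * t + 1) ≤ D * (12 * (1 / N)) ^ (A * t) :=
        mul_le_mul_of_nonneg_left h2 hD0
      have h5 := mul_le_mul_of_nonneg_left h3 (by linarith : (0 : ℝ) ≤ D + 1)
      linarith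
    have hG2x : (D + 1) * (G2 / x) ≤ 1 / 8 := by
      rw [mul_div_assoc', div_le_iff₀ hx0]
      linarith
    have hG2x1 : G2 / x ≤ 1 := by
      rw [div_le_one hx0]
      have := mul_nonneg hD0 hG20.le
      linarith
    calc ((2 * (2 * n + 1) ^ k + 2 ^ t : ℕ) : ℝ) *
          ((((2 ^ t * (2 * (2 * n + 1) ^ k + 2 ^ t + 1) : ℕ) : ℝ)) ^ 2 * 2 ^ (3 * (t * C)) *
          c ^ (2 * L) * ((12 * (1 / N)) ^ (A * t + 1) + D * (1 / N) ^ (A * t + 1)))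
        ≤ 4 ^ t * (64 ^ t * 2 ^ (3 * (t * C)) * (x ^ k) ^ t *
          ((D + 1) * (12 ^ A / x ^ (k + 1)) ^ t)) := by gcongr
      _ = (D + 1) * (G2 / x) ^ t := by
        have e1 : (G2 / x) ^ t = (4 * 64 * 2 ^ (3 * C) * (x ^ k) * (12 ^ A / x ^ (k + 1))) ^ t := by
          congr 1
          rw [hG2, pow_succ]
          field_simp
          norm_num
        rw [e1, mul_pow, mul_pow, mul_pow, mul_pow, ← pow_mul 2,
          show 3 * (t * C) = 3 * C * t by ring]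
        ring
      _ ≤ (D + 1) * (G2 / x) ^ 1 := by
        apply mul_le_mul_of_nonneg_left _ (by positivity)
        exact pow_le_pow_of_le_one (by positivity) hG2x1 ht1'
      _ ≤ 1 / 8 := by rw [pow_one]; exact hG2x
  · -- size
    push_cast
    rw [← hx]
    have e1 : 2 * (2 : ℝ) ^ (x ^ α₀) = 2 ^ (x ^ α₀ + 1) := by
      rw [Real.rpow_add (by norm_num), Real.rpow_one]; ring
    rw [e1, ← Real.rpow_natCast]
    apply Real.rpow_le_rpow_of_exponent_le (by norm_num)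
    linarith

end Pool.Agent.W952.B
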