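import Mathlib
import Pool.Agent.W494.Scopes

/-!
Tokens: every small set of constraints can be given different tokens.
-/

namespace Pool.Agent.W952.B

open Finset

theorem exists_sc (C : ℕ) (hC : 1 ≤ C) :
    ∃ κ : ℝ, 0 < κ ∧ ∀ t : ℕ, 1 ≤ t →
      ∃ sc : (Fin 3 × Fin t × Fin C) → Fin 3 → Fin 3 × Fin t,
        ∀ V : Finset (Fin 3 × Fin t × Fin C), (V.card : ℝ) ≤ κ * t →
          ∃ u : (Fin 3 × Fin t × Fin C) → Fin 3, Set.InjOn (fun i => sc i (u i)) V := by
  classical
  obtain ⟨κ, hκ, h⟩ := Pool.Agent.W494.exists_scopes 3 3 C (by norm_num) (by norm_num) hC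
  refine ⟨κ, hκ, fun t ht => ?_⟩
  obtain ⟨s, -, hs⟩ := h t ht
  refine ⟨fun i l => (l, s i l), fun V hV => ?_⟩
  let nbh : V → Finset (Fin 3 × Fin t) := fun i =>
    (Finset.univ : Finset (Fin 3)).image fun l => (l, s i.1 l)
  have hall : ∀ S : Finset V, S.card ≤ (S.biUnion nbh).card := by
    intro S
    have h1 := hs (S.image Subtype.val) (by
      refine le_trans ?_ hV
      have : (S.image Subtype.val).card ≤ V.card := by
        apply Finset.card_le_card
        intro x hx
        obtain ⟨y, _, rfl⟩ := Finset.mem_image.1 hx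
        exact y.2
      exact_mod_cast this)
    rw [Finset.card_image_of_injective _ Subtype.val_injective, Finset.image_biUnion] at h1
    have h2 : (S.biUnion nbh) = S.biUnion (fun a => (Finset.univ : Finset (Fin 3)).image
        fun l => (l, s a.1 l)) := rfl
    rw [h2]
    omega
  obtain ⟨f, hf, hfm⟩ := (Finset.all_card_le_biUnion_card_iff_exists_injective nbh).1 hall
  have hch : ∀ i : V, ∃ l : Fin 3, (l, s i.1 l) = f i := by
    intro i
    obtain ⟨l, _, hl⟩ := Finset.mem_image.1 (hfm i)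
    exact ⟨l, hl⟩
  choose l hl using hch
  refine ⟨fun i => if hi : i ∈ V then l ⟨i, hi⟩ else 0, ?_⟩
  intro i hi j hj hij
  have hi' : i ∈ V := hi
  have hj' : j ∈ V := hj
  simp only [dif_pos hi', dif_pos hj'] at hij
  have e1 := hl ⟨i, hi'⟩
  have e2 := hl ⟨j, hj'⟩
  simp only at e1 e2
  rw [e1, e2] at hij
  exact congrArg Subtype.val (hf hij)

end Pool.Agent.W952.B
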