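import Mathlib
import Pool.Agent.W494.Scopes

/-!
Unique neighbours in random three-partite scopes and the number of solutions of sparse systems
of linear equations.
-/

set_option autoImplicit false

namespace Pool.Agent.W952.B

open Finset

theorem exists_nb (k C : ℕ) (hk : 1 ≤ k) (hC : 1 ≤ C) :
    ∃ κ : ℝ, 0 < κ ∧ ∀ t : ℕ, 1 ≤ t →
      ∃ nb : (Fin 3 × Fin t × Fin C) × Fin k → Fin 3 → Fin 3 × Fin t,
        ∀ T : Finset ((Fin 3 × Fin t × Fin C) × Fin k), T.Nonempty → (T.card : ℝ) ≤ κ * t →
          ∃ p ∈ T, ∃ u, ∀ p' ∈ T, ∀ u', nb p' u' = nb p u → p' = p ∧ u' = u := by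
  classical
  obtain ⟨κ, hκ, h⟩ := Pool.Agent.W494.exists_scopes 3 3 (C * k) (by norm_num) (by norm_num)
    (Nat.mul_pos hC hk)
  refine ⟨κ, hκ, fun t ht => ?_⟩
  obtain ⟨s, -, hs⟩ := h t ht
  set j : (Fin 3 × Fin t × Fin C) × Fin k → Fin 3 × Fin t × Fin (C * k) := fun q =>
    (q.1.1, q.1.2.1, finProdFinEquiv (q.1.2.2, q.2)) with hj
  have hinj : Function.Injective j := by
    rintro ⟨⟨p1, i1, c1⟩, l1⟩ ⟨⟨p2, i2, c2⟩, l2⟩ h12
    simp only [hj, Prod.mk.injEq] at h12
    obtain ⟨rfl, rfl, h3⟩ := h12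
    have h4 := finProdFinEquiv.injective h3
    simp only [Prod.mk.injEq] at h4
    obtain ⟨rfl, rfl⟩ := h4
    rfl
  refine ⟨fun q u => (u, s (j q) u), ?_⟩
  intro T hT hcard
  by_contra hcon
  push Not at hcon
  set D : Finset (Fin 3 × Fin t) := (T.image j).biUnion fun r =>
    (Finset.univ : Finset (Fin 3)).image fun l => (l, s r l) with hD
  have h1 : (T.image j).card = T.card := card_image_of_injective _ hinj
  have h2 := hs (T.image j) (by rw [h1]; exact hcard)
  have h3 : 5 * T.card ≤ 3 * D.card := by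
    rw [h1] at h2
    have h20 : ((3 - 1) * 3 - 1) = 5 := by norm_num
    rw [h20] at h2
    refine h2.trans (le_of_eq ?_)
    congr 2
  have hmaps : ∀ x ∈ T ×ˢ (Finset.univ : Finset (Fin 3)), ((x.2, s (j x.1) x.2) : Fin 3 × Fin t) ∈ D := by
    intro x hx
    rw [mem_product] at hx
    rw [hD, mem_biUnion]
    exact ⟨j x.1, mem_image_of_mem _ hx.1, mem_image.2 ⟨x.2, mem_univ _, rfl⟩⟩
  have h4 := card_eq_sum_card_fiberwise hmaps
  have h5 : ∀ d ∈ D, 2 ≤ ((T ×ˢ (Finset.univ : Finset (Fin 3))).filter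
      (fun x => ((x.2, s (j x.1) x.2) : Fin 3 × Fin t) = d)).card := by
    intro d hd
    rw [hD, mem_biUnion] at hd
    obtain ⟨r, hr, hd⟩ := hd
    rw [mem_image] at hr
    obtain ⟨p, hp, rfl⟩ := hr
    rw [mem_image] at hd
    obtain ⟨u, -, rfl⟩ := hd
    obtain ⟨p', hp', u', h6, h7⟩ := hcon p hp u
    refine one_lt_card.2 ⟨(p, u), ?_, (p', u'), ?_, ?_⟩
    · rw [mem_filter, mem_product]
      exact ⟨⟨hp, mem_univ _⟩, rfl⟩
    · rw [mem_filter, mem_product]
      exact ⟨⟨hp', mem_univ _⟩, h6⟩
    · intro h8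
      rw [Prod.mk.injEq] at h8
      exact h7 h8.1.symm h8.2.symm
  have h6 : D.card * 2 ≤ (T ×ˢ (Finset.univ : Finset (Fin 3))).card := by
    rw [h4, ← smul_eq_mul]
    exact card_nsmul_le_sum _ _ _ h5
  rw [card_product, card_univ, Fintype.card_fin] at h6
  have h7 := hT.card_pos
  omega

theorem count_sv {P W G : Type*} [DecidableEq P] [Fintype W] [DecidableEq W] [Fintype G]
    [DecidableEq G] [AddCommGroup G]
    (nb : P → Fin 3 → W) (T : Finset P)
    (hUN : ∀ T' ⊆ T, T'.Nonempty → ∃ p ∈ T', ∃ u, ∀ p' ∈ T', ∀ u',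
      nb p' u' = nb p u → p' = p ∧ u' = u)
    (τ : P → G) :
    (univ.filter (fun z : W → G => ∀ p ∈ T, z (nb p 0) + z (nb p 1) + z (nb p 2) = τ p)).card *
      Fintype.card G ^ T.card ≤ Fintype.card G ^ Fintype.card W := by
  induction hn : T.card generalizing T with
  | zero =>
    rw [pow_zero, mul_one]
    refine (card_le_univ _).trans ?_
    rw [Fintype.card_fun]
  | succ n ih =>
    have hne : T.Nonempty := by
      rw [← card_pos, hn]
      exact Nat.succ_pos n
    obtain ⟨p, hp, u, hu⟩ := hUN T (Subset.refl T) hne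
    have ih' := ih (T.erase p) (fun T' hT' hne' => hUN T' (hT'.trans (erase_subset _ _)) hne')
      (by rw [card_erase_of_mem hp, hn]; rfl)
    have hsum : ∀ z : W → G, ∀ q : P, z (nb q 0) + z (nb q 1) + z (nb q 2) =
        ∑ v, z (nb q v) := fun z q =>
      (Fin.sum_univ_three (fun v => z (nb q v))).symm
    have hinj : (univ.filter (fun z : W → G => ∀ q ∈ T,
        z (nb q 0) + z (nb q 1) + z (nb q 2) = τ q)).card * Fintype.card G ≤
        (univ.filter (fun z : W → G => ∀ q ∈ T.erase p,
        z (nb q 0) + z (nb q 1) + z (nb q 2) = τ q)).card := by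
      rw [← card_univ (α := G), ← card_product]
      refine card_le_card_of_injOn
        (fun zx : (W → G) × G => Function.update zx.1 (nb p u) (zx.1 (nb p u) + zx.2)) ?_ ?_
      · rintro ⟨z, x⟩ hz
        rw [mem_coe, mem_product, mem_filter] at hz
        rw [mem_coe, mem_filter]
        refine ⟨mem_univ _, fun q hq => ?_⟩
        rw [← hz.1.2 q (mem_of_mem_erase hq)]
        have hne' : ∀ v, nb q v ≠ nb p u := fun v h => (mem_erase.1 hq).1
          (hu q (mem_of_mem_erase hq) v h).1
        simp only [Function.update_of_ne (hne' _)]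
      · rintro ⟨z, x⟩ hz ⟨z', x'⟩ hz' heq
        rw [mem_coe, mem_product, mem_filter] at hz hz'
        simp only at heq
        have h1 : ∀ w, w ≠ nb p u → z w = z' w := by
          intro w hw
          have := congrFun heq w
          rwa [Function.update_of_ne hw, Function.update_of_ne hw] at this
        have h2 : z (nb p u) + x = z' (nb p u) + x' := by
          have := congrFun heq (nb p u)
          rwa [Function.update_self, Function.update_self] at this
        have h3 : ∑ v, z (nb p v) = ∑ v, z' (nb p v) := by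
          rw [← hsum, ← hsum, hz.1.2 p hp, hz'.1.2 p hp]
        have h4 : ∑ v ∈ univ.erase u, z (nb p v) = ∑ v ∈ univ.erase u, z' (nb p v) := by
          refine sum_congr rfl fun v hv => h1 _ fun h => (mem_erase.1 hv).1 (hu p hp v h).2
        rw [← add_sum_erase univ _ (mem_univ u), ← add_sum_erase univ _ (mem_univ u), h4] at h3
        have h5 : z (nb p u) = z' (nb p u) := add_right_cancel h3
        rw [h5] at h2
        have h6 : x = x' := add_left_cancel h2
        have h7 : z = z' := by
          funext w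
          by_cases hw : w = nb p u
          · rw [hw, h5]
          · exact h1 w hw
        rw [h6, h7]
    calc (univ.filter (fun z : W → G => ∀ q ∈ T,
          z (nb q 0) + z (nb q 1) + z (nb q 2) = τ q)).card * Fintype.card G ^ (n + 1)
        = (univ.filter (fun z : W → G => ∀ q ∈ T,
          z (nb q 0) + z (nb q 1) + z (nb q 2) = τ q)).card * Fintype.card G *
            Fintype.card G ^ n := by rw [pow_succ, mul_assoc, mul_comm (Fintype.card G ^ n)]
      _ ≤ (univ.filter (fun z : W → G => ∀ q ∈ T.erase p,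
          z (nb q 0) + z (nb q 1) + z (nb q 2) = τ q)).card * Fintype.card G ^ n :=
            Nat.mul_le_mul_right _ hinj
      _ ≤ _ := ih'

end Pool.Agent.W952.B
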