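import Pool.Agent.W494.ToDom

/-!
Conversion of constant-depth circuits with free negations into DomAC0 circuits: the wires into the
output gate.
-/

namespace Pool.Agent.W952.B

open Finset Classical Pool.Agent.W494

theorem gateVal_not {J : Type} (D : DomAC0.Circuit J) (x : J → Bool) (g : Fin D.size)
    (hk : D.kind g = .not) : D.gateVal x g = true ↔
      (∀ j, Sum.inl j ∈ D.preds g → x j = false) ∧
        ∀ h, Sum.inr h ∈ D.preds g → D.gateVal x h = false := by
  rw [DomAC0.Circuit.gateVal.eq_def, hk]
  simp only [decide_eq_true_eq]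
  constructor
  · intro H
    exact ⟨fun j hj => H (Sum.inl j) hj, fun h hh => H (Sum.inr h) hh⟩
  · rintro ⟨H1, H2⟩ v hv
    cases v with
    | inl j => exact H1 j hv
    | inr h => exact H2 h hv

/-- The circuit with another output. -/
def setOut {J : Type} (D : DomAC0.Circuit J) (o : J ⊕ Fin D.size) : DomAC0.Circuit J where
  size := D.size
  kind := D.kind
  preds := D.preds
  acyclic := D.acyclic
  unary := D.unary
  output := o

theorem setOut_val {J : Type} (D : DomAC0.Circuit J) (o : J ⊕ Fin D.size) (x : J → Bool) :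
    ∀ (n : ℕ) (g : Fin D.size), g.val = n → (setOut D o).gateVal x g = D.gateVal x g := by
  intro n
  induction n using Nat.strong_induction_on with
  | _ n ih =>
  intro g hg
  have ih' : ∀ q : Fin D.size, Sum.inr q ∈ D.preds g →
      (setOut D o).gateVal x q = D.gateVal x q := by
    intro q hq
    exact ih q.val (by rw [← hg]; exact D.acyclic g q hq) q rfl
  rw [Bool.eq_iff_iff]
  cases hk : D.kind g with
  | not =>
    rw [gateVal_not D x g hk]
    refine (gateVal_not (setOut D o) x g hk).trans ?_
    refine and_congr Iff.rfl (forall_congr' fun q => forall_congr' fun hq => ?_)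
    rw [ih' q hq]
  | and =>
    rw [gateVal_and D x g hk]
    refine (gateVal_and (setOut D o) x g hk).trans ?_
    refine and_congr Iff.rfl (forall_congr' fun q => forall_congr' fun hq => ?_)
    rw [ih' q hq]
  | or =>
    rw [gateVal_or D x g hk]
    refine (gateVal_or (setOut D o) x g hk).trans ?_
    refine or_congr Iff.rfl (exists_congr fun q => and_congr_right fun hq => ?_)
    rw [ih' q hq]

theorem setOut_depth {J : Type} (D : DomAC0.Circuit J) (o : J ⊕ Fin D.size) :
    ∀ (n : ℕ) (g : Fin D.size), g.val = n → (setOut D o).gateDepth g ≤ D.gateDepth g := by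
  intro n
  induction n using Nat.strong_induction_on with
  | _ n ih =>
  intro g hg
  refine (DomAC0.Circuit.gateDepth.eq_def (setOut D o) g).trans_le ?_
  rw [DomAC0.Circuit.gateDepth.eq_def D g]
  refine Nat.add_le_add_right (Finset.sup_mono_fun ?_) 1
  rintro ⟨v, hv⟩ _
  match v, hv with
  | Sum.inl p, hv => exact le_rfl
  | Sum.inr q, hv =>
    exact ih q.val (by rw [← hg]; exact D.acyclic g q hv) q rfl

theorem to_dom_wire {I : Type} [Fintype I] {d : ℕ} (C : Pool.Agent.H596R2.D3.Circuit I d)
    (w : (I ⊕ C.G) × Bool) (hw : w ∈ C.wires C.out) :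
    ∃ D : DomAC0.Circuit (I × Bool), D.size ≤ 2 * C.size ∧ D.depth + 1 ≤ d ∧
      ∀ z : I → Bool, (D.eval (fun p => z p.1 == p.2) = true ↔
        match w with
        | (Sum.inl i, s) => z i = s
        | (Sum.inr h, s) => (C.val z h ↔ s = true)) := by
  let _ := C.fin
  obtain ⟨e, he⟩ := exists_numbering (α := C.G × Bool) (fun a => (C.lev a.1 : ℕ))
  have hsize : Fintype.card (C.G × Bool) ≤ 2 * C.size := by
    rw [Fintype.card_prod, Fintype.card_bool]
    unfold Pool.Agent.H596R2.D3.Circuit.size
    omega
  obtain ⟨w, s⟩ := w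
  cases w with
  | inl i =>
    refine ⟨setOut (newC C e he) (Sum.inl (i, s)), hsize, ?_, ?_⟩
    · show 0 + 1 ≤ d
      have h2 := (C.lev C.out).isLt
      omega
    · intro z
      show (z i == s) = true ↔ z i = s
      simp
  | inr h =>
    refine ⟨setOut (newC C e he) (Sum.inr (e (h, s))), hsize, ?_, ?_⟩
    · show (setOut (newC C e he) (Sum.inr (e (h, s)))).gateDepth (e (h, s)) + 1 ≤ d
      have h1 := setOut_depth (newC C e he) (Sum.inr (e (h, s))) _ (e (h, s)) rfl
      have h2 := newC_depth C e he _ (e (h, s)) rfl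
      rw [Equiv.symm_apply_apply] at h2
      have h3 := C.mono C.out h s hw
      have h4 : (C.lev h : ℕ) < (C.lev C.out : ℕ) := h3
      have h5 := (C.lev C.out).isLt
      simp only at h2
      omega
    · intro z
      show (setOut (newC C e he) (Sum.inr (e (h, s)))).gateVal (fun p => z p.1 == p.2) (e (h, s)) =
        true ↔ (C.val z h ↔ s = true)
      rw [setOut_val (newC C e he) (Sum.inr (e (h, s))) (fun p => z p.1 == p.2) _ (e (h, s)) rfl]
      have := newC_val C e he z _ (e (h, s)) rfl
      rw [Equiv.symm_apply_apply] at this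
      exact this

end Pool.Agent.W952.B
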