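import Mathlib
import Pool.Agent.W952.B.Csp2
import Pool.Agent.W952.B.Par8
import Pool.Agent.W952.B.Emb2
import Pool.Agent.W952.B.Unq
import Pool.Agent.W952.B.Tok
import Pool.Agent.W952.B.Wire
import Pool.Agent.W951.AC.Final

/-!
Circuits of constant depth for the satisfiability of `k`-CNF formulas.
-/

set_option linter.unusedSectionVars false

namespace Pool.Agent.W952.B

open Finset H568R2 H592R3 Pool.Agent.H596R2.D3

lemma count_pos {M W : Type} [Fintype M] [DecidableEq M] [Fintype W] [DecidableEq W] {k : ℕ}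
    {G : Type} [Fintype G] [DecidableEq G] [AddCommGroup G]
    (nb : M × Fin k → Fin 3 → W) {L : ℕ}
    (hUN : ∀ T : Finset (M × Fin k), T.Nonempty → T.card ≤ k * (2 * L) →
      ∃ p ∈ T, ∃ u, ∀ p' ∈ T, ∀ u', nb p' u' = nb p u → p' = p ∧ u' = u)
    (H : Finset M) (hH : H.card < 2 * L) (V : Finset (M × (Fin k → G))) :
    (univ.filter (fun z : W → G => H.image (posn nb z) = V)).card *
      Fintype.card G ^ (k * H.card) ≤ Fintype.card G ^ Fintype.card W := by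
  classical
  rcases (univ.filter (fun z : W → G => H.image (posn nb z) = V)).eq_empty_or_nonempty with h | h
  · rw [h]; simp
  · obtain ⟨z₀, hz₀⟩ := h
    rw [Finset.mem_filter] at hz₀
    have hT : (H ×ˢ (univ : Finset (Fin k))).card = k * H.card := by
      rw [Finset.card_product, Finset.card_univ, Fintype.card_fin, mul_comm]
    have h1 := count_sv (G := G) nb (H ×ˢ (univ : Finset (Fin k))) (by
      intro T' hT' hne
      apply hUN T' hne
      refine (Finset.card_le_card hT').trans ?_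
      rw [hT]
      exact Nat.mul_le_mul_left _ hH.le) (fun p => z₀ (nb p 0) + z₀ (nb p 1) + z₀ (nb p 2))
    rw [hT] at h1
    refine le_trans ?_ h1
    apply Nat.mul_le_mul_right
    apply Finset.card_le_card
    intro z hz
    simp only [Finset.mem_filter, Finset.mem_univ, true_and] at hz ⊢
    rintro ⟨i, l⟩ hp
    rw [Finset.mem_product] at hp
    have h2 : posn nb z i ∈ H.image (posn nb z₀) := by
      rw [hz₀.2, ← hz]
      exact Finset.mem_image_of_mem _ hp.1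
    obtain ⟨i', _, hi'⟩ := Finset.mem_image.1 h2
    have h3 : i' = i := (Prod.mk.inj hi').1
    subst h3
    exact (congrFun (Prod.mk.inj hi').2 l).symm

lemma bad_nat {Y b t C L : ℕ} (hY : 4 ≤ Y) (hb : 1 ≤ b) (hC : 4 * b ≤ C)
    (hL : 4 * L ≤ 3 * (t * C)) :
    4 * ((Y ^ b) ^ (3 * t) * 2 ^ (3 * (t * C))) ≤ (2 * Y) ^ (3 * (t * C) + 1 - L - 3 * t) := by
  obtain ⟨m, hm⟩ : ∃ m, m = 3 * (t * C) := ⟨_, rfl⟩
  have h1 : 4 * (b * (3 * t)) ≤ m := by
    rw [hm]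
    calc 4 * (b * (3 * t)) = 3 * (t * (4 * b)) := by ring
      _ ≤ 3 * (t * C) := Nat.mul_le_mul_left _ (Nat.mul_le_mul_left _ hC)
  have h1' : 3 * t ≤ b * (3 * t) := Nat.le_mul_of_pos_left _ hb
  rw [← hm] at hL ⊢
  obtain ⟨w, hw⟩ : ∃ w, w = b * (3 * t) := ⟨_, rfl⟩
  rw [← pow_mul, ← hw]
  rw [← hw] at h1 h1'
  obtain ⟨F, hF⟩ : ∃ F, m + 1 - L - 3 * t = w + F := ⟨m + 1 - L - 3 * t - w, by omega⟩
  have h2 : m + 2 ≤ w + F + 2 * F := by omega
  rw [hF, mul_pow, pow_add Y]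
  have h3 : 4 * 2 ^ m ≤ 2 ^ (w + F) * Y ^ F := by
    calc 4 * 2 ^ m = 2 ^ (m + 2) := by rw [pow_add]; ring
      _ ≤ 2 ^ (w + F + 2 * F) := Nat.pow_le_pow_right (by norm_num) h2
      _ = 2 ^ (w + F) * 4 ^ F := by rw [pow_add, pow_mul]; norm_num
      _ ≤ 2 ^ (w + F) * Y ^ F := Nat.mul_le_mul_left _ (Nat.pow_le_pow_left hY F)
  calc 4 * (Y ^ w * 2 ^ m) = Y ^ w * (4 * 2 ^ m) := by ring
    _ ≤ Y ^ w * (2 ^ (w + F) * Y ^ F) := Nat.mul_le_mul_left _ h3
    _ = 2 ^ (w + F) * (Y ^ w * Y ^ F) := by ring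

/-- The lower bound for disjunctions and for conjunctions of circuits. -/
theorem main_family (k : ℕ) (hk : 3 ≤ k) (D : ℕ) (β : ℝ) (hβ : β < (k : ℝ) / (k + D)) :
    ∃ n₀ : ℕ, ∀ n : ℕ, n₀ ≤ n → ∀ (R : Type) (_ : Fintype R) (s : ℕ)
      (Ci : R → DomAC0.Circuit (Clause n k × Bool)),
      (∀ r, (Ci r).depth ≤ D + 1) → (∀ r, (Ci r).size ≤ 2 * s) →
      Fintype.card R ≤ 2 * (Fintype.card (Clause n k) + s) →
      ((∀ z, (∃ r, (Ci r).eval (fun p => z p.1 == p.2) = true) ↔ Satisfiable z) ∨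
        (∀ z, (∀ r, (Ci r).eval (fun p => z p.1 == p.2) = true) ↔ Satisfiable z)) →
      (2 : ℝ) ^ ((n : ℝ) ^ β) < s := by
  classical
  have hkR : (3 : ℝ) ≤ k := by exact_mod_cast hk
  have hD0 : (0 : ℝ) ≤ D := Nat.cast_nonneg D
  obtain ⟨θ, hθ⟩ : ∃ θ : ℝ, θ = (k : ℝ) / (k + D) := ⟨_, rfl⟩
  rw [← hθ] at hβ
  have hden : (0 : ℝ) < k + D := by linarith
  have hθ0 : 0 < θ := by rw [hθ]; apply div_pos _ hden; linarith
  have hθ1 : θ ≤ 1 := by rw [hθ, div_le_one hden]; linarith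
  obtain ⟨α₀, hα₀⟩ : ∃ a : ℝ, a = max β (θ / 4) := ⟨_, rfl⟩
  have hα₀0 : 0 < α₀ := by rw [hα₀]; exact lt_max_of_lt_right (by linarith)
  have hα₀θ : α₀ < θ := by rw [hα₀]; exact max_lt hβ (by linarith)
  have hβα₀ : β ≤ α₀ := by rw [hα₀]; exact le_max_left _ _
  obtain ⟨α, hα⟩ : ∃ a : ℝ, a = (α₀ + θ) / 2 := ⟨_, rfl⟩
  have hcond : α * D < (1 - α) * k := by
    have h1 : α < θ := by rw [hα]; linarith
    rw [hθ, lt_div_iff₀ hden] at h1
    nlinarith
  obtain ⟨b, C₀, hb, hC₀, hpar⟩ := params8 k D hk α₀ α hα₀0 (by rw [hα]; linarith)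
    (by rw [hα]; linarith) hcond
  obtain ⟨κ₁, hκ₁, hnb⟩ := exists_nb k C₀ (by omega) (by omega)
  obtain ⟨κ₂, hκ₂, hsc⟩ := exists_sc C₀ (by omega)
  obtain ⟨n₀, hn₀⟩ := hpar (min κ₁ κ₂) (lt_min hκ₁ hκ₂)
  refine ⟨max n₀ 1, fun n hn R _ s Ci hdepth hsize hcR hdec => ?_⟩
  by_contra hcon
  push Not at hcon
  have hn1 : (1 : ℝ) ≤ n := by exact_mod_cast (le_max_right _ _).trans hn
  obtain ⟨t, Y, L, h, S, N, ht, hY, hL, hh, hN, hvars, hLκ, hL2, h2, h3, h4, h5⟩ :=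
    hn₀ n ((le_max_left _ _).trans hn)
  have ht0 : (0 : ℝ) ≤ t := Nat.cast_nonneg t
  obtain ⟨nb, hnb⟩ := hnb t ht
  obtain ⟨sc, hsc⟩ := hsc t ht
  have hUN : ∀ T : Finset ((Fin 3 × Fin t × Fin C₀) × Fin k), T.Nonempty →
      T.card ≤ k * (2 * L) →
      ∃ p ∈ T, ∃ u, ∀ p' ∈ T, ∀ u', nb p' u' = nb p u → p' = p ∧ u' = u := by
    intro T hT hTc
    apply hnb T hT
    refine le_trans ?_ (hLκ.trans (mul_le_mul_of_nonneg_right (min_le_left _ _) ht0))
    exact_mod_cast hTc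
  have hsc' : ∀ V : Finset (Fin 3 × Fin t × Fin C₀), V.card < L →
      ∃ u : (Fin 3 × Fin t × Fin C₀) → Fin 3, Set.InjOn (fun i => sc i (u i)) V := by
    intro V hV
    apply hsc V
    refine le_trans ?_ (hLκ.trans (mul_le_mul_of_nonneg_right (min_le_right _ _) ht0))
    have : V.card ≤ k * (2 * L) := by nlinarith
    exact_mod_cast this
  have hq : 0 < Y ^ b := by positivity
  obtain ⟨q, hqq⟩ : ∃ q : ℕ, q = Y ^ b := ⟨_, rfl⟩
  have : NeZero q := ⟨by omega⟩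
  have hcW : Fintype.card (Fin 3 × Fin t) = 3 * t := by simp
  have hcM : Fintype.card (Fin 3 × Fin t × Fin C₀) = 3 * (t * C₀) := by simp
  obtain ⟨X, hX, hsat⟩ := emb2 (n := n) (k := k) (q := q) (M := Fin 3 × Fin t × Fin C₀)
    (W := Fin 3 × Fin t) (fun a b => a + b) hk nb sc (by
      rw [hcW, hcM]
      rw [← hqq] at hvars hq
      have e1 : 3 * (t * C₀) ≤ 3 * (t * C₀) * k * q := by
        calc 3 * (t * C₀) = 3 * (t * C₀) * 1 * 1 := by ring
          _ ≤ 3 * (t * C₀) * k * q :=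
            Nat.mul_le_mul (Nat.mul_le_mul_left _ (by omega)) hq
      omega)
  have h2s : 2 * s ≤ S := by
    have e1 : (2 : ℝ) ^ ((n : ℝ) ^ β) ≤ 2 ^ ((n : ℝ) ^ α₀) := by
      apply Real.rpow_le_rpow_of_exponent_le (by norm_num)
      exact Real.rpow_le_rpow_of_exponent_le hn1 hβα₀
    have e2 : ((2 * s : ℕ) : ℝ) ≤ S := by
      calc ((2 * s : ℕ) : ℝ) = 2 * (s : ℝ) := by push_cast; ring
        _ ≤ 2 * (2 : ℝ) ^ ((n : ℝ) ^ α₀) := by linarith
        _ ≤ S := h5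
    exact_mod_cast e2
  have hcC := card_clause n k
  have hJ : Fintype.card (Clause n k × Bool) ≤ 2 * (2 * n + 1) ^ k := by
    rw [Fintype.card_prod, Fintype.card_bool, mul_comm]
    exact Nat.mul_le_mul_left 2 hcC
  refine csp_lower2 (G := Fin q) (R' := 2 * (2 * n + 1) ^ k + S) nb sc hL hsc'
    (fun H hH V => count_pos nb hUN H hH V) hh Ci
    (fun x p => (X x p.1 == p.2)) (fun p => Pool.Agent.W951.AC.proj_junta hX p.1 p.2) ?_ hdepth
    (fun r => (hsize r).trans h2s) hN (by omega : 1 ≤ Y) ?_ ?_ ?_ ?_ ?_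
  · rcases hdec with hdec | hdec
    · left
      intro x
      rw [hdec (X x), hsat x]
      exact Iff.rfl
    · right
      intro x
      rw [hdec (X x), hsat x]
      exact Iff.rfl
  · rw [hcM, hcW, Fintype.card_fin, hqq]
    have h6 := bad_nat (t := t) (b := b) (C := C₀) (L := L) hY hb hC₀ hL2
    exact_mod_cast h6
  · rw [Fintype.card_fin, hqq]
    exact h2
  · omega
  · rw [hcM]
    exact h3
  · rw [hcM]
    refine le_trans ?_ h4
    gcongr

/-- **Constant-depth circuits for `k`-SAT.** -/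
theorem main (k : ℕ) (hk : 3 ≤ k) (d : ℕ) (hd : 2 ≤ d) (β : ℝ)
    (hβ : β < (k : ℝ) / (k + d - 2)) :
    ∃ n₀ : ℕ, ∀ n : ℕ, n₀ ≤ n → ∀ C : Circuit (Clause n k) d, C.Decides →
      (2 : ℝ) ^ ((n : ℝ) ^ β) < C.size := by
  classical
  obtain ⟨D, rfl⟩ : ∃ D, d = D + 2 := ⟨d - 2, by omega⟩
  obtain ⟨n₀, hn₀⟩ := main_family k hk D β (by
    refine lt_of_lt_of_le hβ (le_of_eq ?_)
    push_cast
    ring)
  refine ⟨n₀, fun n hn C hC => ?_⟩
  let _ := C.fin
  have hw := fun r : {w : (Clause n k ⊕ C.G) × Bool // w ∈ C.wires C.out} =>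
    to_dom_wire C r.1 r.2
  choose Ci hsize hdepth heval using hw
  refine hn₀ n hn {w : (Clause n k ⊕ C.G) × Bool // w ∈ C.wires C.out} inferInstance C.size Ci
    (fun r => by have := hdepth r; omega) hsize ?_ ?_
  · refine (Fintype.card_subtype_le _).trans ?_
    rw [Fintype.card_prod, Fintype.card_sum, Fintype.card_bool]
    unfold Pool.Agent.H596R2.D3.Circuit.size
    rw [mul_comm]
  · by_cases hout : C.conj C.out = true
    · right
      intro z
      rw [← hC z, Pool.Agent.H596R2.D3.Circuit.val, if_pos hout]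
      constructor
      · intro hr
        exact ⟨fun i s his => (heval ⟨(Sum.inl i, s), his⟩ z).1 (hr _),
          fun h s hhs => (heval ⟨(Sum.inr h, s), hhs⟩ z).1 (hr _)⟩
      · rintro ⟨h1, h2⟩ ⟨⟨x, s⟩, hxs⟩
        rw [heval]
        cases x with
        | inl i => exact h1 i s hxs
        | inr h => exact h2 h s hxs
    · left
      intro z
      rw [← hC z, Pool.Agent.H596R2.D3.Circuit.val, if_neg hout]
      constructor
      · rintro ⟨⟨⟨x, s⟩, hxs⟩, hr⟩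
        rw [heval] at hr
        cases x with
        | inl i => exact Or.inl ⟨i, s, hxs, hr⟩
        | inr h => exact Or.inr ⟨h, s, hxs, hr⟩
      · rintro (⟨i, s, his, hz⟩ | ⟨h, s, hhs, hz⟩)
        · exact ⟨⟨(Sum.inl i, s), his⟩, (heval _ z).2 hz⟩
        · exact ⟨⟨(Sum.inr h, s), hhs⟩, (heval _ z).2 hz⟩

end Pool.Agent.W952.B
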