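import Mathlib
import Pool.Agent.H596R2.D3.Defs

/-!
Circuits with AND, OR and NOT gates as circuits with free negations.
-/

namespace Pool.Agent.W952.B

open Finset Classical Pool.Agent.H596R2.D3

/-- The values of the gates. -/
def cval {I : Type} {m : ℕ} (kind : Fin m → Fin 3) (predIn : Fin m → Finset I)
    (predG : Fin m → Finset (Fin m)) (hac : ∀ j : Fin m, ∀ i ∈ predG j, i < j)
    (x : I → Bool) (j : Fin m) : Prop :=
  if kind j = 0 then (∃ i ∈ predIn j, x i = true) ∨
    ∃ h, ∃ _hh : h ∈ predG j, cval kind predIn predG hac x h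
  else if kind j = 1 then
    (∀ i ∈ predIn j, x i = true) ∧ ∀ h, ∀ _hh : h ∈ predG j, cval kind predIn predG hac x h
  else ¬ ((∀ i ∈ predIn j, x i = true) ∧
    ∀ h, ∀ _hh : h ∈ predG j, cval kind predIn predG hac x h)
termination_by j.val
decreasing_by
  all_goals exact hac _ _ _hh

section Plain
variable {I : Type} {m : ℕ} (kind : Fin m → Fin 3) (predIn : Fin m → Finset I)
  (predG : Fin m → Finset (Fin m)) (hac : ∀ j : Fin m, ∀ i ∈ predG j, i < j)

/-- The gate equations. -/
def Cons (x : I → Bool) (v : Fin m → Bool) : Prop :=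
  ∀ j : Fin m,
    (kind j = 0 → (v j = true ↔ ((∃ i ∈ predIn j, x i = true) ∨ ∃ h ∈ predG j, v h = true))) ∧
    (kind j = 1 → (v j = true ↔ ((∀ i ∈ predIn j, x i = true) ∧ ∀ h ∈ predG j, v h = true))) ∧
    (kind j = 2 → (v j = true ↔ ¬ ((∀ i ∈ predIn j, x i = true) ∧ ∀ h ∈ predG j, v h = true)))

theorem cons_iff (x : I → Bool) (v : Fin m → Bool) (hv : Cons kind predIn predG x v) :
    ∀ (N : ℕ) (j : Fin m), j.val = N → (v j = true ↔ cval kind predIn predG hac x j) := by
  intro N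
  induction N using Nat.strong_induction_on with
  | _ N ih =>
  intro j hj
  have ih' : ∀ h, h ∈ predG j → (v h = true ↔ cval kind predIn predG hac x h) :=
    fun h hh => ih h.val (by rw [← hj]; exact hac j h hh) h rfl
  obtain ⟨h0, h1, h2⟩ := hv j
  rw [cval]
  have h3 : kind j = 0 ∨ kind j = 1 ∨ kind j = 2 := by
    generalize kind j = a
    revert a
    decide
  rcases h3 with h3 | h3 | h3
  · rw [if_pos h3, h0 h3]
    constructor
    · rintro (h | ⟨g, hg, hgv⟩)
      · exact Or.inl h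
      · exact Or.inr ⟨g, hg, (ih' g hg).1 hgv⟩
    · rintro (h | ⟨g, hg, hgv⟩)
      · exact Or.inl h
      · exact Or.inr ⟨g, hg, (ih' g hg).2 hgv⟩
  · rw [if_neg (by rw [h3]; decide), if_pos h3, h1 h3]
    constructor
    · rintro ⟨ha, hb⟩
      exact ⟨ha, fun g hg => (ih' g hg).1 (hb g hg)⟩
    · rintro ⟨ha, hb⟩
      exact ⟨ha, fun g hg => (ih' g hg).2 (hb g hg)⟩
  · rw [if_neg (by rw [h3]; decide), if_neg (by rw [h3]; decide), h2 h3, not_iff_not]
    constructor
    · rintro ⟨ha, hb⟩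
      exact ⟨ha, fun g hg => (ih' g hg).1 (hb g hg)⟩
    · rintro ⟨ha, hb⟩
      exact ⟨ha, fun g hg => (ih' g hg).2 (hb g hg)⟩

theorem cons_cval (x : I → Bool) :
    Cons kind predIn predG x (fun j => decide (cval kind predIn predG hac x j)) := by
  intro j
  simp only [decide_eq_true_eq]
  refine ⟨fun h => ?_, fun h => ?_, fun h => ?_⟩
  · rw [cval, if_pos h]
    constructor
    · rintro (h | ⟨g, hg, hgv⟩)
      · exact Or.inl h
      · exact Or.inr ⟨g, hg, hgv⟩
    · rintro (h | ⟨g, hg, hgv⟩)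
      · exact Or.inl h
      · exact Or.inr ⟨g, hg, hgv⟩
  · rw [cval, if_neg (by rw [h]; decide), if_pos h]
  · rw [cval, if_neg (by rw [h]; decide), if_neg (by rw [h]; decide)]

theorem exists_iff (x : I → Bool) (o : Fin m) :
    (∃ v : Fin m → Bool, Cons kind predIn predG x v ∧ v o = true) ↔
      cval kind predIn predG hac x o := by
  constructor
  · rintro ⟨v, hv, ho⟩
    exact (cons_iff kind predIn predG hac x v hv _ o rfl).1 ho
  · intro h
    exact ⟨_, cons_cval kind predIn predG hac x, by simpa using h⟩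

variable (hnot : ∀ j : Fin m, kind j = 2 → (predIn j).card + (predG j).card = 1)
  {d : ℕ} (lvl : Fin m → ℕ) (hl1 : ∀ j : Fin m, 1 ≤ lvl j)
  (hl2 : ∀ j : Fin m, ∀ i ∈ predG j, lvl i + 1 ≤ lvl j) (o : Fin m) (ho : lvl o ≤ d)

/-- The circuit with free negations. -/
def toC : Circuit I d where
  G := {j : Fin m // lvl j ≤ d}
  fin := inferInstance
  conj := fun g => decide (kind g.1 ≠ 0)
  lev := fun g => ⟨lvl g.1 - 1, by have := hl1 g.1; have := g.2; omega⟩
  wires := fun g => {w | w.2 = decide (kind g.1 ≠ 2) ∧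
    match w.1 with
    | Sum.inl i => i ∈ predIn g.1
    | Sum.inr h => h.1 ∈ predG g.1}
  mono := by
    intro g h s hs
    have h1 : h.1 ∈ predG g.1 := hs.2
    have h2 := hl2 _ _ h1
    have h3 := hl1 h.1
    rw [Fin.lt_def]
    simp only
    omega
  out := ⟨o, ho⟩

include hnot in
theorem toC_val (x : I → Bool) :
    ∀ (N : ℕ) (g : (toC kind predIn predG lvl hl1 hl2 o ho).G), g.1.val = N →
      ((toC kind predIn predG lvl hl1 hl2 o ho).val x g ↔ cval kind predIn predG hac x g.1) := by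
  intro N
  induction N using Nat.strong_induction_on with
  | _ N ih =>
  intro g hg
  have ih' : ∀ h : (toC kind predIn predG lvl hl1 hl2 o ho).G, h.1 ∈ predG g.1 →
      ((toC kind predIn predG lvl hl1 hl2 o ho).val x h ↔ cval kind predIn predG hac x h.1) :=
    fun h hh => ih h.1.val (by rw [← hg]; exact hac g.1 h.1 hh) h rfl
  have hle : ∀ h ∈ predG g.1, lvl h ≤ d := by
    intro h hh
    have h2 := hl2 _ _ hh
    have h3 : lvl g.1 ≤ d := g.2
    omega
  have hw1 : ∀ i s, ((Sum.inl i, s) : (I ⊕ (toC kind predIn predG lvl hl1 hl2 o ho).G) × Bool) ∈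
      (toC kind predIn predG lvl hl1 hl2 o ho).wires g ↔
      s = decide (kind g.1 ≠ 2) ∧ i ∈ predIn g.1 := fun i s => Iff.rfl
  have hw2 : ∀ h s, ((Sum.inr h, s) : (I ⊕ (toC kind predIn predG lvl hl1 hl2 o ho).G) × Bool) ∈
      (toC kind predIn predG lvl hl1 hl2 o ho).wires g ↔
      s = decide (kind g.1 ≠ 2) ∧ h.1 ∈ predG g.1 := fun i s => Iff.rfl
  have hcj : (toC kind predIn predG lvl hl1 hl2 o ho).conj g = decide (kind g.1 ≠ 0) := rfl
  rw [Circuit.val, cval, hcj]
  simp only [hw1, hw2]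
  have h3 : kind g.1 = 0 ∨ kind g.1 = 1 ∨ kind g.1 = 2 := by
    generalize kind g.1 = a
    revert a
    decide
  rcases h3 with h3 | h3 | h3
  · have e0 : decide (kind g.1 ≠ 0) = false := by rw [h3]; decide
    have e2 : decide (kind g.1 ≠ 2) = true := by rw [h3]; decide
    rw [e0, e2, if_neg (by simp), if_pos h3]
    constructor
    · rintro (⟨i, s, ⟨rfl, hi⟩, hx⟩ | ⟨h, s, ⟨rfl, hh⟩, hx⟩)
      · exact Or.inl ⟨i, hi, hx⟩
      · exact Or.inr ⟨h.1, hh, (ih' h hh).1 (hx.2 rfl)⟩
    · rintro (⟨i, hi, hx⟩ | ⟨h, hh, hx⟩)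
      · exact Or.inl ⟨i, true, ⟨rfl, hi⟩, hx⟩
      · refine Or.inr ⟨⟨h, hle h hh⟩, true, ⟨rfl, hh⟩, ?_⟩
        exact ⟨fun _ => rfl, fun _ => (ih' ⟨h, hle h hh⟩ hh).2 hx⟩
  · have e0 : decide (kind g.1 ≠ 0) = true := by rw [h3]; decide
    have e2 : decide (kind g.1 ≠ 2) = true := by rw [h3]; decide
    rw [e0, e2, if_pos rfl, if_neg (by rw [h3]; decide), if_pos h3]
    constructor
    · rintro ⟨ha, hb⟩
      refine ⟨fun i hi => ha i true ⟨rfl, hi⟩, fun h hh => ?_⟩
      exact (ih' ⟨h, hle h hh⟩ hh).1 ((hb ⟨h, hle h hh⟩ true ⟨rfl, hh⟩).2 rfl)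
    · rintro ⟨ha, hb⟩
      refine ⟨?_, ?_⟩
      · rintro i s ⟨rfl, hi⟩
        exact ha i hi
      · rintro h s ⟨rfl, hh⟩
        exact ⟨fun _ => rfl, fun _ => (ih' h hh).2 (hb h.1 hh)⟩
  · have e0 : decide (kind g.1 ≠ 0) = true := by rw [h3]; decide
    have e2 : decide (kind g.1 ≠ 2) = false := by rw [h3]; decide
    rw [e0, e2, if_pos rfl, if_neg (by rw [h3]; decide), if_neg (by rw [h3]; decide)]
    have hone := hnot g.1 h3
    constructor
    · rintro ⟨ha, hb⟩ ⟨hc, hd⟩
      rcases Nat.eq_zero_or_pos (predIn g.1).card with h0 | h0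
      · obtain ⟨h, hh⟩ := Finset.card_pos.1 (by omega : 0 < (predG g.1).card)
        have h5 := (hb ⟨h, hle h hh⟩ false ⟨rfl, hh⟩).1 ((ih' ⟨h, hle h hh⟩ hh).2 (hd h hh))
        exact absurd h5 (by simp)
      · obtain ⟨i, hi⟩ := Finset.card_pos.1 h0
        have h5 := ha i false ⟨rfl, hi⟩
        rw [hc i hi] at h5
        exact absurd h5 (by simp)
    · intro hn
      refine ⟨?_, ?_⟩
      · rintro i s ⟨rfl, hi⟩
        by_contra hx
        have hx' : x i = true := by simpa using hx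
        apply hn
        have hcard : (predIn g.1).card = 1 ∧ (predG g.1).card = 0 := by
          have := Finset.card_pos.2 ⟨i, hi⟩
          omega
        obtain ⟨i', hi'⟩ := Finset.card_eq_one.1 hcard.1
        refine ⟨fun j hj => ?_, fun h hh => ?_⟩
        · rw [hi', Finset.mem_singleton] at hi hj
          rw [hj, ← hi]
          exact hx'
        · rw [Finset.card_eq_zero.1 hcard.2] at hh
          exact absurd hh (by simp)
      · rintro h s ⟨rfl, hh⟩
        refine ⟨fun hv => ?_, fun hf => absurd hf (by simp)⟩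
        exfalso
        apply hn
        have hcard : (predIn g.1).card = 0 ∧ (predG g.1).card = 1 := by
          have := Finset.card_pos.2 ⟨h.1, hh⟩
          omega
        obtain ⟨h', hh'⟩ := Finset.card_eq_one.1 hcard.2
        refine ⟨fun j hj => ?_, fun h2 hh2 => ?_⟩
        · rw [Finset.card_eq_zero.1 hcard.1] at hj
          exact absurd hj (by simp)
        · have hv' := (ih' h hh).1 hv
          rw [hh', Finset.mem_singleton] at hh hh2
          rw [hh2, ← hh]
          exact hv'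

end Plain

/-- Circuits with AND, OR and NOT gates which decide `k`-SAT give circuits with free negations. -/
theorem plain {n k d : ℕ} (m : ℕ) (kind : Fin m → Fin 3)
    (predIn : Fin m → Finset (Clause n k)) (predG : Fin m → Finset (Fin m)) (o : Fin m)
    (hac : ∀ j : Fin m, ∀ i ∈ predG j, i < j)
    (hnot : ∀ j : Fin m, kind j = 2 → (predIn j).card + (predG j).card = 1)
    (hl : ∃ lvl : Fin m → ℕ, (∀ j : Fin m, 1 ≤ lvl j) ∧
      (∀ j : Fin m, ∀ i ∈ predG j, lvl i + 1 ≤ lvl j) ∧ lvl o ≤ d)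
    (hdec : ∀ x : Clause n k → Bool,
      (∃ v : Fin m → Bool, Cons kind predIn predG x v ∧ v o = true) ↔ Satisfiable x) :
    ∃ C : Circuit (Clause n k) d, C.Decides ∧ C.size ≤ m := by
  obtain ⟨lvl, hl1, hl2, ho⟩ := hl
  refine ⟨toC kind predIn predG lvl hl1 hl2 o ho, ?_, ?_⟩
  · intro x
    rw [← hdec x, exists_iff kind predIn predG hac x o]
    exact toC_val kind predIn predG hac hnot lvl hl1 hl2 o ho x _
      (toC kind predIn predG lvl hl1 hl2 o ho).out rfl
  · unfold Circuit.size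
    refine le_trans (Fintype.card_subtype_le _) ?_
    rw [Fintype.card_fin]

end Pool.Agent.W952.B
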