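import Pool.Agent.W494.Emb3U

/-!
Project B53, part E (helper253): embedding of a constraint satisfaction problem whose positions are
values of `op (op z₀ z₁) z₂` into `k`-CNF formulas.  Adapted from `Pool.Agent.W494.emb3u`.
-/

set_option autoImplicit false

namespace Pool.Agent.W952.B

open Finset Classical Pool.Agent.H596R2.D3

/-- the variables: digits, chains, partial sums, sums -/
abbrev VB (M W : Type) (k q : ℕ) : Type :=
  (W × Fin q) ⊕ (W × Fin (q + 1)) ⊕ ((M × Fin k) × Fin q) ⊕ ((M × Fin k) × Fin q)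

section
variable {M W : Type} {k q : ℕ}

/-- digit -/
def vZ (j : W) (a : Fin q) : VB M W k q := Sum.inl (j, a)
/-- chain variable -/
def vC (j : W) (a : Fin (q + 1)) : VB M W k q := Sum.inr (Sum.inl (j, a))
/-- partial sum -/
def vP (p : M × Fin k) (a : Fin q) : VB M W k q := Sum.inr (Sum.inr (Sum.inl (p, a)))
/-- sum -/
def vR (p : M × Fin k) (a : Fin q) : VB M W k q := Sum.inr (Sum.inr (Sum.inr (p, a)))

/-- clauses of the input bits -/
noncomputable def clB (i : M × (Fin k → Fin q)) : Finset (VB M W k q × Bool) :=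
  univ.image (fun l : Fin k => ((vR (i.1, l) (i.2 l) : VB M W k q), false))

/-- fixed clauses -/
def fxB (op : Fin q → Fin q → Fin q) (nb : M × Fin k → Fin 3 → W) :
    Set (Finset (VB M W k q × Bool)) :=
  {c | (∃ j : W, c = {((vC j 0 : VB M W k q), true)}) ∨
    (∃ (j : W) (d : Fin q), c = {((vC j d.castSucc : VB M W k q), false),
      ((vZ j d : VB M W k q), true), ((vC j d.succ : VB M W k q), true)}) ∨
    (∃ j : W, c = {((vC j (Fin.last q) : VB M W k q), false)}) ∨
    (∃ (p : M × Fin k) (a b : Fin q), c = {((vZ (nb p 0) a : VB M W k q), false),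
      ((vZ (nb p 1) b : VB M W k q), false), ((vP p (op a b) : VB M W k q), true)}) ∨
    ∃ (p : M × Fin k) (a b : Fin q), c = {((vP p a : VB M W k q), false),
      ((vZ (nb p 2) b : VB M W k q), false), ((vR p (op a b) : VB M W k q), true)}}

theorem clB_inj (hk : 3 ≤ k) : Function.Injective (clB (M := M) (W := W) (k := k) (q := q)) := by
  rintro ⟨j, c⟩ ⟨j', c'⟩ h
  have hmem : ∀ l : Fin k, j = j' ∧ c l = c' l := by
    intro l
    have h1 : ((vR (j, l) (c l) : VB M W k q), false) ∈ clB (W := W) (j', c') := by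
      rw [← h]
      unfold clB
      exact mem_image.mpr ⟨l, mem_univ _, rfl⟩
    unfold clB at h1
    obtain ⟨l', _, hl'⟩ := mem_image.mp h1
    simp only [vR, Prod.mk.injEq, Sum.inr.injEq, and_true] at hl'
    obtain ⟨⟨h2, h3⟩, h4⟩ := hl'
    subst h3
    exact ⟨h2.symm, h4.symm⟩
  have hj : j = j' := (hmem ⟨0, by omega⟩).1
  have hc : c = c' := funext fun l => (hmem l).2
  rw [hj, hc]

end

theorem emb {n k q : ℕ} {M W : Type} [Fintype M] [DecidableEq M] [Fintype W] [DecidableEq W]
    (op : Fin q → Fin q → Fin q) (hk : 3 ≤ k) (nb : M × Fin k → Fin 3 → W)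
    (hn : Fintype.card W * (2 * q + 1) + 2 * (Fintype.card M * k * q) ≤ n) :
    ∃ X : ((M × (Fin k → Fin q)) → Bool) → Clause n k → Bool, IsProj X ∧
      ∀ w, Satisfiable (X w) ↔ ∃ z : W → Fin q, ∀ i : M,
        w (i, fun l => op (op (z (nb (i, l) 0)) (z (nb (i, l) 1))) (z (nb (i, l) 2))) = true := by
  have hcard : Fintype.card (VB M W k q) ≤ Fintype.card (Fin n) := by
    simp only [Fintype.card_sum, Fintype.card_prod, Fintype.card_fin]
    refine le_trans (le_of_eq ?_) hn
    ring
  obtain ⟨f⟩ := Function.Embedding.nonempty_of_card_le hcard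
  obtain ⟨X, hX, hsem, _⟩ := Pool.Agent.W494.embedU (k := k) f f.injective (fxB op nb)
    (clB (M := M) (W := W) (k := k) (q := q))
    (by
      rintro c (⟨p, rfl⟩ | ⟨p, d, rfl⟩ | ⟨p, rfl⟩ | ⟨p, d, d', rfl⟩ | ⟨p, d, d', rfl⟩)
      · rw [card_singleton]; omega
      · exact card_le_three.trans hk
      · rw [card_singleton]; omega
      · exact card_le_three.trans hk
      · exact card_le_three.trans hk)
    (fun q => by
      unfold clB
      refine card_image_le.trans ?_
      rw [card_univ, Fintype.card_fin])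
    (clB_inj hk) true
  refine ⟨X, hX, ?_⟩
  intro w
  rw [hsem]
  constructor
  · rintro ⟨x, hx1, hx2⟩
    have hc0 : ∀ p : W, x (vC p 0) = true := by
      intro p
      obtain ⟨l, hl, hxl⟩ := hx1 _ (Or.inl ⟨p, rfl⟩)
      rw [mem_singleton.mp hl] at hxl
      exact hxl
    have hc1 : ∀ (p : W) (d : Fin q), x (vC p d.castSucc) = false ∨
        x (vZ p d) = true ∨ x (vC p d.succ) = true := by
      intro p d
      obtain ⟨l, hl, hxl⟩ := hx1 _ (Or.inr (Or.inl ⟨p, d, rfl⟩))
      simp only [mem_insert, mem_singleton] at hl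
      rcases hl with rfl | rfl | rfl
      · exact Or.inl hxl
      · exact Or.inr (Or.inl hxl)
      · exact Or.inr (Or.inr hxl)
    have hc2 : ∀ p : W, x (vC p (Fin.last q)) = false := by
      intro p
      obtain ⟨l, hl, hxl⟩ := hx1 _ (Or.inr (Or.inr (Or.inl ⟨p, rfl⟩)))
      rw [mem_singleton.mp hl] at hxl
      exact hxl
    have hdig : ∀ p : W, ∃ d : Fin q, x (vZ p d) = true := by
      intro p
      exact chain (fun d => x (vZ p d)) (fun d => x (vC p d)) (hc0 p) (hc1 p) (hc2 p)
    choose z hz using hdig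
    have hP : ∀ p : M × Fin k, x (vP p (op (z (nb p 0)) (z (nb p 1)))) = true := by
      intro p
      obtain ⟨l, hl, hxl⟩ := hx1 _ (Or.inr (Or.inr (Or.inr (Or.inl
        ⟨p, z (nb p 0), z (nb p 1), rfl⟩))))
      simp only [mem_insert, mem_singleton] at hl
      rcases hl with rfl | rfl | rfl
      · simp only at hxl; rw [hz] at hxl; exact absurd hxl (by simp)
      · simp only at hxl; rw [hz] at hxl; exact absurd hxl (by simp)
      · exact hxl
    have hR : ∀ p : M × Fin k,
        x (vR p (op (op (z (nb p 0)) (z (nb p 1))) (z (nb p 2)))) = true := by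
      intro p
      obtain ⟨l, hl, hxl⟩ := hx1 _ (Or.inr (Or.inr (Or.inr (Or.inr
        ⟨p, op (z (nb p 0)) (z (nb p 1)), z (nb p 2), rfl⟩))))
      simp only [mem_insert, mem_singleton] at hl
      rcases hl with rfl | rfl | rfl
      · simp only at hxl; rw [hP] at hxl; exact absurd hxl (by simp)
      · simp only at hxl; rw [hz] at hxl; exact absurd hxl (by simp)
      · exact hxl
    refine ⟨z, fun i => ?_⟩
    by_contra hl
    have hl' : w (i, fun l => op (op (z (nb (i, l) 0)) (z (nb (i, l) 1))) (z (nb (i, l) 2))) =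
        false := by simpa using hl
    obtain ⟨l', hl2, hxl⟩ := hx2 (i, fun l => op (op (z (nb (i, l) 0)) (z (nb (i, l) 1)))
      (z (nb (i, l) 2))) (by rw [hl']; rfl)
    unfold clB at hl2
    obtain ⟨l, _, rfl⟩ := mem_image.mp hl2
    simp only at hxl
    rw [hR (i, l)] at hxl
    exact absurd hxl (by simp)
  · rintro ⟨z, hz⟩
    refine ⟨fun y => match y with
      | Sum.inl (j, a) => decide (a = z j)
      | Sum.inr (Sum.inl (j, d)) => decide (d.val ≤ (z j).val)
      | Sum.inr (Sum.inr (Sum.inl (p, a))) => decide (a = op (z (nb p 0)) (z (nb p 1)))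
      | Sum.inr (Sum.inr (Sum.inr (p, a))) =>
        decide (a = op (op (z (nb p 0)) (z (nb p 1))) (z (nb p 2))), ?_, ?_⟩
    · rintro c (⟨p, rfl⟩ | ⟨p, d, rfl⟩ | ⟨p, rfl⟩ | ⟨p, a, b, rfl⟩ | ⟨p, a, b, rfl⟩)
      · exact ⟨_, mem_singleton_self _, by simp [vC]⟩
      · by_cases h1 : d.val ≤ (z p).val
        · by_cases h2 : d = z p
          · exact ⟨(vZ p d, true), by simp, by simp only [vZ, decide_eq_true_eq]; exact h2⟩
          · refine ⟨(vC p d.succ, true), by simp, ?_⟩
            simp only [vC, decide_eq_true_eq, Fin.val_succ]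
            have : d.val ≠ (z p).val := fun h => h2 (Fin.ext h)
            omega
        · refine ⟨(vC p d.castSucc, false), by simp, ?_⟩
          simp only [vC, decide_eq_false_iff_not, Fin.val_castSucc]
          exact h1
      · refine ⟨_, mem_singleton_self _, ?_⟩
        simp only [vC, decide_eq_false_iff_not, Fin.val_last, not_le]
        exact (z p).isLt
      · by_cases h1 : a = z (nb p 0)
        · by_cases h2 : b = z (nb p 1)
          · refine ⟨(vP p (op a b), true), by simp, ?_⟩
            simp only [vP, decide_eq_true_eq]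
            rw [h1, h2]
          · exact ⟨(vZ (nb p 1) b, false), by simp, by simp [vZ, h2]⟩
        · exact ⟨(vZ (nb p 0) a, false), by simp, by simp [vZ, h1]⟩
      · by_cases h1 : a = op (z (nb p 0)) (z (nb p 1))
        · by_cases h2 : b = z (nb p 2)
          · refine ⟨(vR p (op a b), true), by simp, ?_⟩
            simp only [vR, decide_eq_true_eq]
            rw [h1, h2]
          · exact ⟨(vZ (nb p 2) b, false), by simp, by simp [vZ, h2]⟩
        · exact ⟨(vP p a, false), by simp, by simp [vP, h1]⟩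
    · rintro ⟨i, c⟩ hq
      have hw : w (i, c) = false := by
        cases hh : w (i, c) <;> simp_all
      have hne : c ≠ fun l => op (op (z (nb (i, l) 0)) (z (nb (i, l) 1))) (z (nb (i, l) 2)) := by
        rintro rfl
        rw [hz i] at hw
        exact absurd hw (by simp)
      obtain ⟨l, hl⟩ := Function.ne_iff.mp hne
      refine ⟨_, mem_image.mpr ⟨l, mem_univ _, rfl⟩, ?_⟩
      simp only [vR, decide_eq_false_iff_not]
      exact hl

end Pool.Agent.W952.B
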